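import Mathlib
import Pool.Agent.H85.FG.V4

/-!
# W0: refutations with MOD_m gates if a prime `p` divides `m` and `r / gcd (r, N)`: definitions

Rows: the sets `S` of `p ^ j` points, `j` the exponent of `p` in `N`. For each `S` exactly one of the formulas `ps Q`,
`Q ∈ cm r S`, is true; each `Q` occurs in a number of rows which is divisible by `p`; the number of rows is not.
-/

set_option autoImplicit false

namespace Pool.Agent.H85.FW

open Pool.Agent.H3.Frg Pool.Agent.H3.Frg2 Pool.Agent.H67.FG Pool.Agent.H85.FG Pool.Agent.H93.RG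

/-- `x₁ → (x₂ → … → ¬ (z → z))` -/
def ch {V : Type} (z : Fo V) : List (Fo V) → Fo V
  | [] => .neg (.imp z z)
  | x :: l => .imp x (ch z l)

/-- the conjunction of the members of a list -/
def cj {V : Type} (z : Fo V) (l : List (Fo V)) : Fo V := .neg (ch z l)

variable {N : ℕ}

/-- `Q`: the blocks of a partition which meet `S` -/
def Cm (r : ℕ) (S : Finset (Fin N)) (Q : Finset (Finset (Fin N))) : Prop :=
  (∀ B ∈ Q, B.card = r ∧ ∃ a ∈ S, a ∈ B) ∧ (∀ B ∈ Q, ∀ B' ∈ Q, B ≠ B' → Disjoint B B') ∧ ∀ a ∈ S, ∃ B ∈ Q, a ∈ B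

open Classical in
/-- all `Q` for `S` -/
noncomputable def cm (r : ℕ) (S : Finset (Fin N)) : Finset (Finset (Finset (Fin N))) :=
  Finset.univ.filter fun Q => Cm r S Q

/-- the conjunction of the variables of the blocks in `Q` -/
noncomputable def ps (Q : Finset (Finset (Fin N))) : Fo (Finset (Fin N)) := cj (.var ∅) (Q.toList.map Fo.var)

/-- the row of `S` -/
noncomputable def rw1 (r : ℕ) (S : Finset (Fin N)) : List (Fo (Finset (Fin N))) := (cm r S).toList.map ps

end Pool.Agent.H85.FW
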