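import Mathlib
import Pool.Agent.H85.FW.W0
import Pool.Agent.H67.FW.Comb2a
import Pool.Agent.H93.FW.Comb2

/-!
# Comb2: the sets of blocks which meet a set of points (helper67, helper93)
-/

set_option autoImplicit false

namespace Pool.Agent.H85.FW

variable {N r : ℕ} {S : Finset (Fin N)} {Q Q' : Finset (Finset (Fin N))}

theorem mem_cm : Q ∈ cm r S ↔ Cm r S Q := by
  simp [cm]

theorem cm_empty : cm r (∅ : Finset (Fin N)) = {∅} := cm_empty67

theorem cm_mem (hQ : Cm r S Q) {a : Fin N} {B : Finset (Fin N)} (hB : B ∈ Q) (ha : a ∈ B) : Cm r (insert a S) Q :=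
  cm_mem67 hQ hB ha

theorem cm_insert (hQ : Cm r S Q) {a : Fin N} {B : Finset (Fin N)} (hB : B.card = r) (ha : a ∈ B)
    (hd : ∀ B' ∈ Q, Disjoint B B') : Cm r (insert a S) (insert B Q) := cm_insert67 hQ hB ha hd

theorem cm_ne (hQ : Cm r S Q) (hQ' : Cm r S Q') (h : Q ≠ Q') :
    ∃ (a : Fin N) (B B' : Finset (Fin N)), B ∈ Q ∧ B' ∈ Q' ∧ a ∈ B ∧ a ∈ B' ∧ B ≠ B' := cm_ne67 hQ hQ' h

/-- at most one block for each point -/
theorem cm_qcard (hQ : Cm r S Q) : Q.card ≤ S.card := cm_qcard_93 hQ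

/-- `cm r (insert a S)` is contained in the image of `cm r S ×ˢ V.blk r a` under `(Q, B) ↦ Q` or `insert B Q` -/
theorem cm_card (r : ℕ) (S : Finset (Fin N)) : (cm r S).card ≤ (N ^ r) ^ S.card := cm_card_93 r S

/-- `S` lies in one block -/
theorem cm_nonempty (hS : S.card ≤ r) (hr : r ≤ N) : (cm r S).Nonempty := cm_nonempty_93 hS hr

end Pool.Agent.H85.FW
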