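import Mathlib
import Pool.Agent.H85.FW.W0

/-!
# Der2: conjunctions of variables
-/

set_option autoImplicit false

namespace Pool.Agent.H85.FW

open Pool.Agent.H3.Frg Pool.Agent.H3.Frg2 Pool.Agent.H67.FG Pool.Agent.H85.FG Pool.Agent.H93.RG

variable {V : Type} {m k L : ℕ} {Hyp : Set (Fo V)}

theorem Bd_ch (z : V) (l : List V) : Bd (2 * l.length + 4) 2 0 (ch (.var z) (l.map Fo.var)) := by
  induction l with
  | nil => exact Bd_mono (Bd_neg (Bd_imp (Bd_var z) (Bd_var z))) (by simp) (by simp) le_rfl
  | cons x l ih =>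
    rw [List.map_cons, ch]
    refine Bd_mono (Bd_imp (Bd_var x) ih) ?_ (by simp) le_rfl
    rw [List.length_cons]
    omega

theorem Bd_cj (z : V) (l : List V) : Bd (2 * l.length + 5) 3 0 (cj (.var z) (l.map Fo.var)) :=
  Bd_neg (Bd_ch z l)

/-- schemes `¬(y → C) → y`, `(¬C → y) → (¬(x → C) → y)` -/
theorem cj_proj (hk : 40 ≤ k) (z : V) (l : List V) (hL : 10 * l.length + 40 ≤ L) {y : V} (hy : y ∈ l) :
    Can m k Hyp (Bd L 8 3) (2 * l.length) (.imp (cj (.var z) (l.map Fo.var)) (.var y)) := by
  induction l with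
  | nil => exact absurd hy List.not_mem_nil
  | cons x l ih =>
    rw [List.length_cons] at hL
    have hC := Bd_ch z l
    have hx : Bd (2 * l.length + 7) 3 0 (.neg (.imp (.var x) (ch (.var z) (l.map Fo.var)))) :=
      Bd_mono (Bd_neg (Bd_imp (Bd_var x) hC)) (by omega) (by simp) le_rfl
    have ho : Bd (2 * l.length + 9) 4 0 (.imp (.neg (.imp (.var x) (ch (.var z) (l.map Fo.var)))) (.var y)) :=
      Bd_mono (Bd_imp hx (Bd_var y)) (by omega) (by simp) le_rfl
    show Can m k Hyp (Bd L 8 3) (2 * (x :: l).length)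
      (.imp (.neg (.imp (.var x) (ch (.var z) (l.map Fo.var)))) (.var y))
    by_cases hxy : y = x
    · subst hxy
      refine can_mono ?_ (show 1 ≤ _ by rw [List.length_cons]; omega)
      refine can_ax (ψ := Fm.imp (Fm.neg (Fm.imp (Fm.var 0) (Fm.var 1))) (Fm.var 0))
        (σ := fun n => match n with
          | 0 => .var y
          | _ => ch (.var z) (l.map Fo.var)) (by simp [Fm.len]; omega) (fun v hv => ?_) ?_
      · show (!(!(!(v (.var y)) || v (ch (.var z) (l.map Fo.var)))) || v (.var y)) = true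
        cases v (.var y) <;> cases v (ch (.var z) (l.map Fo.var)) <;> rfl
      · show Bd _ _ _ (Fo.imp (.neg (.imp (.var y) (ch (.var z) (l.map Fo.var)))) (.var y))
        exact Bd_mono ho (by omega) (by omega) (by omega)
    · have hy' : y ∈ l := by
        rcases List.mem_cons.1 hy with h | h
        · exact absurd h hxy
        · exact h
      have h1 := ih (by omega) hy'
      have h3 : Can m k Hyp (Bd L 8 3) 1 (.imp (.imp (cj (.var z) (l.map Fo.var)) (.var y))
          (.imp (.neg (.imp (.var x) (ch (.var z) (l.map Fo.var)))) (.var y))) := by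
        refine can_ax (ψ := Fm.imp (Fm.imp (Fm.neg (Fm.var 0)) (Fm.var 1))
          (Fm.imp (Fm.neg (Fm.imp (Fm.var 2) (Fm.var 0))) (Fm.var 1)))
          (σ := fun n => match n with
            | 0 => ch (.var z) (l.map Fo.var)
            | 1 => .var y
            | _ => .var x) (by simp [Fm.len]; omega) (fun v hv => ?_) ?_
        · show (!(!(!(v (ch (.var z) (l.map Fo.var)))) || v (.var y)) ||
            (!(!(!(v (.var x)) || v (ch (.var z) (l.map Fo.var)))) || v (.var y))) = true
          cases v (.var y) <;> cases v (ch (.var z) (l.map Fo.var)) <;> cases v (.var x) <;> rfl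
        · show Bd _ _ _ (Fo.imp (.imp (.neg (ch (.var z) (l.map Fo.var))) (.var y))
            (.imp (.neg (.imp (.var x) (ch (.var z) (l.map Fo.var)))) (.var y)))
          exact Bd_mono (Bd_imp (Bd_imp (Bd_neg hC) (Bd_var y)) ho) (by omega) (by omega) (by omega)
      have h4 := can_mp h1 h3 (Bd_mono ho (by omega) (by omega) (by omega))
      exact can_mono h4 (by rw [List.length_cons]; omega)

/-- schemes `A → (B → ¬¬(z → z))`, `(A → (B → y)) → ((A → (B → ¬C)) → (A → (B → ¬(y → C))))` -/
theorem cj_intro (hk : 40 ≤ k) {a b c : ℕ} {A B : Fo V} (hA : Bd a 3 0 A) (hB : Bd b 3 0 B) (z : V) (l : List V)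
    (hL : 4 * a + 4 * b + 10 * l.length + 60 ≤ L)
    (h : ∀ y ∈ l, Can m k Hyp (Bd L 8 3) c (.imp A (.imp B (.var y)))) :
    Can m k Hyp (Bd L 8 3) ((c + 3) * l.length + 1) (.imp A (.imp B (cj (.var z) (l.map Fo.var)))) := by
  induction l with
  | nil =>
    rw [List.length_nil] at hL
    refine can_mono ?_ (show 1 ≤ _ by simp)
    refine can_ax (ψ := Fm.imp (Fm.var 0) (Fm.imp (Fm.var 1) (Fm.neg (Fm.neg (Fm.imp (Fm.var 2) (Fm.var 2))))))
      (σ := fun n => match n with
        | 0 => A
        | 1 => B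
        | _ => .var z) (by simp [Fm.len]; omega) (fun v hv => ?_) ?_
    · show (!(v A) || (!(v B) || (!(!(!(v (.var z)) || v (.var z)))))) = true
      cases v A <;> cases v B <;> cases v (.var z) <;> rfl
    · show Bd _ _ _ (Fo.imp A (.imp B (.neg (.neg (.imp (.var z) (.var z))))))
      exact Bd_mono (Bd_imp hA (Bd_imp hB (Bd_neg (Bd_neg (Bd_imp (Bd_var z) (Bd_var z)))))) (by omega)
        (by omega) (by omega)
  | cons y l ih =>
    rw [List.length_cons] at hL
    have hC := Bd_ch z l
    have h1 := h y List.mem_cons_self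
    have h2 := ih (by omega) (fun y' hy' => h y' (List.mem_cons_of_mem _ hy'))
    have hT1 : Bd (a + b + 3) 4 0 (.imp A (.imp B (.var y))) :=
      Bd_mono (Bd_imp hA (Bd_imp hB (Bd_var y))) (by omega) (by omega) (by omega)
    have hT2 : Bd (a + b + 2 * l.length + 7) 4 0 (.imp A (.imp B (.neg (ch (.var z) (l.map Fo.var))))) :=
      Bd_mono (Bd_imp hA (Bd_imp hB (Bd_neg hC))) (by omega) (by omega) (by omega)
    have hT3 : Bd (a + b + 2 * l.length + 9) 4 0
        (.imp A (.imp B (.neg (.imp (.var y) (ch (.var z) (l.map Fo.var)))))) :=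
      Bd_mono (Bd_imp hA (Bd_imp hB (Bd_neg (Bd_imp (Bd_var y) hC)))) (by omega) (by omega) (by omega)
    have hT23 : Bd (2 * a + 2 * b + 4 * l.length + 17) 5 0
        (.imp (.imp A (.imp B (.neg (ch (.var z) (l.map Fo.var)))))
          (.imp A (.imp B (.neg (.imp (.var y) (ch (.var z) (l.map Fo.var))))))) :=
      Bd_mono (Bd_imp hT2 hT3) (by omega) (by omega) (by omega)
    have h3 : Can m k Hyp (Bd L 8 3) 1 (.imp (.imp A (.imp B (.var y)))
        (.imp (.imp A (.imp B (.neg (ch (.var z) (l.map Fo.var)))))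
          (.imp A (.imp B (.neg (.imp (.var y) (ch (.var z) (l.map Fo.var)))))))) := by
      refine can_ax (ψ := Fm.imp (Fm.imp (Fm.var 0) (Fm.imp (Fm.var 1) (Fm.var 2)))
        (Fm.imp (Fm.imp (Fm.var 0) (Fm.imp (Fm.var 1) (Fm.neg (Fm.var 3))))
          (Fm.imp (Fm.var 0) (Fm.imp (Fm.var 1) (Fm.neg (Fm.imp (Fm.var 2) (Fm.var 3)))))))
        (σ := fun n => match n with
          | 0 => A
          | 1 => B
          | 2 => .var y
          | _ => ch (.var z) (l.map Fo.var)) (by simp [Fm.len]; omega) (fun v hv => ?_) ?_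
      · show (!(!(v A) || (!(v B) || v (.var y))) || (!(!(v A) || (!(v B) || !(v (ch (.var z) (l.map Fo.var))))) ||
          (!(v A) || (!(v B) || !(!(v (.var y)) || v (ch (.var z) (l.map Fo.var))))))) = true
        cases v A <;> cases v B <;> cases v (.var y) <;> cases v (ch (.var z) (l.map Fo.var)) <;> rfl
      · show Bd _ _ _ (Fo.imp (.imp A (.imp B (.var y)))
          (.imp (.imp A (.imp B (.neg (ch (.var z) (l.map Fo.var)))))
            (.imp A (.imp B (.neg (.imp (.var y) (ch (.var z) (l.map Fo.var))))))))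
        exact Bd_mono (Bd_imp hT1 hT23) (by omega) (by omega) (by omega)
    have h4 := can_mp h1 h3 (Bd_mono hT23 (by omega) (by omega) (by omega))
    have h5 := can_mp h2 h4 (Bd_mono hT3 (by omega) (by omega) (by omega))
    refine can_mono h5 ?_
    rw [List.length_cons]
    have : (c + 3) * (l.length + 1) = (c + 3) * l.length + (c + 3) := by ring
    omega

end Pool.Agent.H85.FW
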