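import Mathlib
import Pool.Agent.H85.FW.W0

/-!
# Der1: disjunctions (every member `Bd s 3 0`)
-/

set_option autoImplicit false

namespace Pool.Agent.H85.FW

open Pool.Agent.H3.Frg Pool.Agent.H3.Frg2 Pool.Agent.H67.FG Pool.Agent.H85.FG Pool.Agent.H93.RG

variable {V : Type} {m k L s : ℕ} {Hyp : Set (Fo V)}

theorem Bd_dj3 {x : Fo V} {Y : List (Fo V)} (h : ∀ B ∈ x :: Y, Bd s 3 0 B) :
    Bd ((s + 2) * (Y.length + 1)) 5 0 (dj x Y) := by
  induction Y generalizing x with
  | nil =>
    rw [dj]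
    exact Bd_mono (h x List.mem_cons_self) (by simp) (by omega) le_rfl
  | cons y Y ih =>
    rw [dj]
    have h1 := Bd_imp (Bd_neg (h x List.mem_cons_self))
      (ih (x := y) (fun B hB => h B (List.mem_cons_of_mem _ hB)))
    refine Bd_mono h1 ?_ (by simp) le_rfl
    rw [List.length_cons]
    have e : (s + 2) * (Y.length + 1 + 1) = (s + 2) * (Y.length + 1) + (s + 2) := by ring
    omega

theorem Bd_gt3 (a : ℕ) {X : List (Fo V)} (h : ∀ B ∈ X, Bd s 3 0 B) : Bd (s * X.length + 1) 3 1 (gt a X) := by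
  have hsub : ∀ C, C ∈ (gt a X).subs → C = gt a X ∨ ∃ B ∈ X, C ∈ B.subs := by
    intro C hC
    unfold Pool.Agent.H85.FG.gt at hC ⊢
    rw [Fo.subs, List.mem_cons] at hC
    rcases hC with hC | hC
    · exact Or.inl hC
    · rw [List.mem_flatMap] at hC
      obtain ⟨i, _, hC⟩ := hC
      exact Or.inr ⟨X.get i, List.get_mem X i, hC⟩
  refine ⟨?_, fun C hC => ?_, ?_⟩
  · unfold Pool.Agent.H85.FG.gt
    rw [Fo.subs, List.length_cons, List.length_flatMap]
    have h1 : ∀ x ∈ ((List.finRange X.length).map fun i => (X.get i).subs.length), x ≤ s := by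
      intro x hx
      obtain ⟨i, _, rfl⟩ := List.mem_map.1 hx
      exact (h (X.get i) (List.get_mem X i)).1
    have h2 := List.sum_le_card_nsmul _ s h1
    rw [List.length_map, List.length_finRange, smul_eq_mul, mul_comm] at h2
    exact Nat.succ_le_succ h2
  · rcases hsub C hC with rfl | ⟨B, hB, hC⟩
    · exact Nat.zero_le _
    · exact (h B hB).2.1 C hC
  · have h1 : (gt a X).gates ⊆ {gt a X} := by
      rintro C ⟨hC, hM⟩
      rcases hsub _ hC with h2 | ⟨B, hB, hC⟩
      · exact h2
      · exfalso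
        have h3 := (h B hB).2.2
        have h4 : B.gates.Finite := (List.finite_toSet B.subs).subset fun D hD => hD.1
        have h5 : B.gates = ∅ := (Set.ncard_eq_zero h4).1 (Nat.le_zero.1 h3)
        have h6 : C ∈ B.gates := ⟨hC, hM⟩
        rw [h5] at h6
        exact h6
    exact (Set.ncard_le_ncard h1 (Set.finite_singleton _)).trans (Set.ncard_singleton _).le

/-- scheme `(x → G) → ((d → G) → ((¬x → d) → G))` -/
theorem elim (hk : 40 ≤ k) {c g : ℕ} {G : Fo V} (hG : Bd g 5 0 G) (x : Fo V) (Y : List (Fo V))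
    (h : ∀ B ∈ x :: Y, Bd s 3 0 B) (hL : 3 * g + 4 * ((s + 2) * (Y.length + 1)) + 20 ≤ L)
    (hc : ∀ B ∈ x :: Y, Can m k Hyp (Bd L 8 3) c (.imp B G)) :
    Can m k Hyp (Bd L 8 3) ((c + 3) * (Y.length + 1)) (.imp (dj x Y) G) := by
  induction Y generalizing x with
  | nil =>
    rw [dj]
    exact can_mono (hc x List.mem_cons_self) (by simp)
  | cons y Y ih =>
    simp only [List.length_cons] at hL
    have e : (s + 2) * (Y.length + 1 + 1) = (s + 2) * (Y.length + 1) + (s + 2) := by ring
    rw [e] at hL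
    have hx : Bd s 3 0 x := h x List.mem_cons_self
    have h' : ∀ B ∈ y :: Y, Bd s 3 0 B := fun B hB => h B (List.mem_cons_of_mem _ hB)
    have hd : Bd ((s + 2) * (Y.length + 1)) 5 0 (dj y Y) := Bd_dj3 h'
    have h1 := ih y h' (by omega) (fun B hB => hc B (List.mem_cons_of_mem _ hB))
    have h2 := hc x List.mem_cons_self
    generalize hT : (s + 2) * (Y.length + 1) = T at *
    have hb1 : Bd (s + T + g + 4) 6 0 (.imp (.imp (.neg x) (dj y Y)) G) :=
      Bd_mono (Bd_imp (Bd_imp (Bd_neg hx) hd) hG) (by omega) (by omega) (by omega)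
    have hb2 : Bd (s + 2 * T + 2 * g + 6) 7 0 (.imp (.imp (dj y Y) G) (.imp (.imp (.neg x) (dj y Y)) G)) :=
      Bd_mono (Bd_imp (Bd_imp hd hG) hb1) (by omega) (by omega) (by omega)
    have h3 : Can m k Hyp (Bd L 8 3) 1 (.imp (.imp x G)
        (.imp (.imp (dj y Y) G) (.imp (.imp (.neg x) (dj y Y)) G))) := by
      refine can_ax (ψ := Fm.imp (Fm.imp (Fm.var 0) (Fm.var 1)) (Fm.imp (Fm.imp (Fm.var 2) (Fm.var 1))
        (Fm.imp (Fm.imp (Fm.neg (Fm.var 0)) (Fm.var 2)) (Fm.var 1))))
        (σ := fun n => match n with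
          | 0 => x
          | 1 => G
          | _ => dj y Y) (by simp [Fm.len]; omega) (fun v hv => ?_) ?_
      · show (!(!(v x) || v G) || (!(!(v (dj y Y)) || v G) ||
          (!(!(!(v x)) || v (dj y Y)) || v G))) = true
        cases v x <;> cases v G <;> cases v (dj y Y) <;> rfl
      · show Bd _ _ _ (Fo.imp (.imp x G) (.imp (.imp (dj y Y) G) (.imp (.imp (.neg x) (dj y Y)) G)))
        exact Bd_mono (Bd_imp (Bd_imp hx hG) hb2) (by omega) (by omega) (by omega)
    have h4 := can_mp h2 h3 (Bd_mono hb2 (by omega) (by omega) (by omega))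
    have h5 := can_mp h1 h4 (Bd_mono hb1 (by omega) (by omega) (by omega))
    refine can_mono h5 ?_
    simp only [List.length_cons]
    have e2 : (c + 3) * (Y.length + 1 + 1) = (c + 3) * (Y.length + 1) + (c + 3) := by ring
    omega

/-- schemes `x → (¬x → d)`, `(A → d) → (A → (¬x → d))`, and `x → x` for `Y = []` -/
theorem intro (hk : 40 ≤ k) (x : Fo V) (Y : List (Fo V)) (h : ∀ B ∈ x :: Y, Bd s 3 0 B)
    (hL : 4 * ((s + 2) * (Y.length + 1)) + 20 ≤ L) {A : Fo V} (hA : A ∈ x :: Y) :
    Can m k Hyp (Bd L 8 3) (2 * (Y.length + 1)) (.imp A (dj x Y)) := by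
  induction Y generalizing x with
  | nil =>
    have hx : Bd s 3 0 x := h x List.mem_cons_self
    rw [List.mem_singleton] at hA
    subst hA
    simp only [List.length_nil] at hL
    refine can_mono ?_ (show 1 ≤ _ by simp)
    refine can_ax (ψ := Fm.imp (Fm.var 0) (Fm.var 0)) (σ := fun _ => A) (by simp [Fm.len]; omega)
      (fun v hv => ?_) ?_
    · show (!(v A) || v A) = true
      cases v A <;> rfl
    · show Bd _ _ _ (Fo.imp A A)
      exact Bd_mono (Bd_imp hx hx) (by omega) (by omega) (by omega)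
  | cons y Y ih =>
    simp only [List.length_cons] at hL
    have e : (s + 2) * (Y.length + 1 + 1) = (s + 2) * (Y.length + 1) + (s + 2) := by ring
    rw [e] at hL
    have hx : Bd s 3 0 x := h x List.mem_cons_self
    have hAb : Bd s 3 0 A := h A hA
    have h' : ∀ B ∈ y :: Y, Bd s 3 0 B := fun B hB => h B (List.mem_cons_of_mem _ hB)
    have hd : Bd ((s + 2) * (Y.length + 1)) 5 0 (dj y Y) := Bd_dj3 h'
    rcases List.mem_cons.1 hA with hAx | hA'
    · subst hAx
      refine can_mono ?_ (show 1 ≤ _ by simp only [List.length_cons]; omega)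
      refine can_ax (ψ := Fm.imp (Fm.var 0) (Fm.imp (Fm.neg (Fm.var 0)) (Fm.var 1)))
        (σ := fun n => match n with
          | 0 => A
          | _ => dj y Y) (by simp [Fm.len]; omega) (fun v hv => ?_) ?_
      · show (!(v A) || (!(!(v A)) || v (dj y Y))) = true
        cases v A <;> cases v (dj y Y) <;> rfl
      · show Bd _ _ _ (Fo.imp A (.imp (.neg A) (dj y Y)))
        exact Bd_mono (Bd_imp hx (Bd_imp (Bd_neg hx) hd)) (by omega) (by omega) (by omega)
    · have h1 := ih y h' (by omega) hA'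
      generalize hT : (s + 2) * (Y.length + 1) = T at *
      have hb : Bd (2 * s + T + 3) 5 0 (.imp A (.imp (.neg x) (dj y Y))) :=
        Bd_mono (Bd_imp hAb (Bd_imp (Bd_neg hx) hd)) (by omega) (by omega) (by omega)
      have h3 : Can m k Hyp (Bd L 8 3) 1 (.imp (.imp A (dj y Y)) (.imp A (.imp (.neg x) (dj y Y)))) := by
        refine can_ax (ψ := Fm.imp (Fm.imp (Fm.var 0) (Fm.var 1))
          (Fm.imp (Fm.var 0) (Fm.imp (Fm.neg (Fm.var 2)) (Fm.var 1))))
          (σ := fun n => match n with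
            | 0 => A
            | 1 => dj y Y
            | _ => x) (by simp [Fm.len]; omega) (fun v hv => ?_) ?_
        · show (!(!(v A) || v (dj y Y)) || (!(v A) || (!(!(v x)) || v (dj y Y)))) = true
          cases v A <;> cases v x <;> cases v (dj y Y) <;> rfl
        · show Bd _ _ _ (Fo.imp (.imp A (dj y Y)) (.imp A (.imp (.neg x) (dj y Y))))
          exact Bd_mono (Bd_imp (Bd_imp hAb hd) hb) (by omega) (by omega) (by omega)
      have h4 := can_mp h1 h3 (Bd_mono hb (by omega) (by omega) (by omega))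
      refine can_mono h4 ?_
      simp only [List.length_cons]
      omega

end Pool.Agent.H85.FW
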