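import Mathlib
import Pool.Agent.H85.FW.Comb2
import Pool.Agent.H85.FW.Der1
import Pool.Agent.H85.FW.Der2

/-!
# Der3: two sets of blocks; a block and a set of blocks
-/

set_option autoImplicit false

namespace Pool.Agent.H85.FW

open Pool.Agent.H3.Frg Pool.Agent.H3.Frg2 Pool.Agent.H67.FG Pool.Agent.H85.FG Pool.Agent.H93.RG

section Schemes

variable {V : Type} {m k L : ℕ} {Hyp : Set (Fo V)}

/-- `G → (x → G)` -/
theorem wk_d3 (hk : 40 ≤ k) {x G : Fo V} {a b n : ℕ} (hx : Bd a 3 0 x) (hG : Bd b 6 0 G) (hL : a + 2 * b + 2 ≤ L)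
    (h : Can m k Hyp (Bd L 8 3) n G) : Can m k Hyp (Bd L 8 3) (n + 2) (.imp x G) := by
  have h1 : Can m k Hyp (Bd L 8 3) 1 (.imp G (.imp x G)) := by
    refine can_ax (ψ := Fm.imp (Fm.var 0) (Fm.imp (Fm.var 1) (Fm.var 0)))
      (σ := fun n => match n with
        | 0 => G
        | _ => x) (by simp [Fm.len]; omega) (fun v _ => ?_) ?_
    · show (!(v G) || (!(v x) || v G)) = true
      cases v G <;> cases v x <;> rfl
    · show Bd _ _ _ (Fo.imp G (.imp x G))
      exact Bd_mono (Bd_imp hG (Bd_imp hx hG)) (by omega) (by omega) (by omega)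
  exact can_mp h h1 (Bd_mono (Bd_imp hx hG) (by omega) (by omega) (by omega))

/-- `(A → B) → ((A' → B') → ((B → ¬B') → (A → ¬A')))` -/
theorem two_d3 (hk : 40 ≤ k) {A A' B B' : Fo V} {a n1 n2 n3 : ℕ} (hA : Bd a 3 0 A) (hA' : Bd a 3 0 A') (hB : Bd 1 0 0 B)
    (hB' : Bd 1 0 0 B') (hL : 4 * a + 20 ≤ L) (h1 : Can m k Hyp (Bd L 8 3) n1 (.imp A B))
    (h2 : Can m k Hyp (Bd L 8 3) n2 (.imp A' B')) (h3 : Can m k Hyp (Bd L 8 3) n3 (.imp B (.neg B'))) :
    Can m k Hyp (Bd L 8 3) (n1 + n2 + n3 + 4) (.imp A (.neg A')) := by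
  have e1 := Bd_imp hA (Bd_neg hA')
  have e2 := Bd_imp (Bd_imp hB (Bd_neg hB')) e1
  have e3 := Bd_imp (Bd_imp hA' hB') e2
  have h4 : Can m k Hyp (Bd L 8 3) 1 (.imp (.imp A B) (.imp (.imp A' B') (.imp (.imp B (.neg B')) (.imp A (.neg A'))))) := by
    refine can_ax (ψ := Fm.imp (Fm.imp (Fm.var 0) (Fm.var 1)) (Fm.imp (Fm.imp (Fm.var 2) (Fm.var 3))
      (Fm.imp (Fm.imp (Fm.var 1) (Fm.neg (Fm.var 3))) (Fm.imp (Fm.var 0) (Fm.neg (Fm.var 2))))))
      (σ := fun n => match n with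
        | 0 => A
        | 1 => B
        | 2 => A'
        | _ => B') (by simp [Fm.len]; omega) (fun v _ => ?_) ?_
    · show (!(!(v A) || v B) || (!(!(v A') || v B') || (!(!(v B) || !(v B')) || (!(v A) || !(v A'))))) = true
      cases v A <;> cases v B <;> cases v A' <;> cases v B' <;> rfl
    · show Bd _ _ _ (Fo.imp (.imp A B) (.imp (.imp A' B') (.imp (.imp B (.neg B')) (.imp A (.neg A')))))
      exact Bd_mono (Bd_imp (Bd_imp hA hB) e3) (by omega) (by omega) (by omega)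
  have h5 := can_mp h1 h4 (Bd_mono e3 (by omega) (by omega) (by omega))
  have h6 := can_mp h2 h5 (Bd_mono e2 (by omega) (by omega) (by omega))
  exact can_mono (can_mp h3 h6 (Bd_mono e1 (by omega) (by omega) (by omega))) (by omega)

/-- `(B → ¬B') → ((A → B') → (B → (A → D)))` -/
theorem abs_d3 (hk : 40 ≤ k) {A B B' D : Fo V} {a d n1 n2 : ℕ} (hA : Bd a 3 0 A) (hB : Bd 1 0 0 B) (hB' : Bd 1 0 0 B')
    (hD : Bd d 5 0 D) (hL : 2 * a + d + 20 ≤ L) (h1 : Can m k Hyp (Bd L 8 3) n1 (.imp B (.neg B')))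
    (h2 : Can m k Hyp (Bd L 8 3) n2 (.imp A B')) :
    Can m k Hyp (Bd L 8 3) (n1 + n2 + 3) (.imp B (.imp A D)) := by
  have e1 := Bd_imp hB (Bd_imp hA hD)
  have e2 := Bd_imp (Bd_imp hA hB') e1
  have h4 : Can m k Hyp (Bd L 8 3) 1 (.imp (.imp B (.neg B')) (.imp (.imp A B') (.imp B (.imp A D)))) := by
    refine can_ax (ψ := Fm.imp (Fm.imp (Fm.var 0) (Fm.neg (Fm.var 1))) (Fm.imp (Fm.imp (Fm.var 2) (Fm.var 1))
      (Fm.imp (Fm.var 0) (Fm.imp (Fm.var 2) (Fm.var 3)))))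
      (σ := fun n => match n with
        | 0 => B
        | 1 => B'
        | 2 => A
        | _ => D) (by simp [Fm.len]; omega) (fun v _ => ?_) ?_
    · show (!(!(v B) || !(v B')) || (!(!(v A) || v B') || (!(v B) || (!(v A) || v D)))) = true
      cases v A <;> cases v B <;> cases v B' <;> cases v D <;> rfl
    · show Bd _ _ _ (Fo.imp (.imp B (.neg B')) (.imp (.imp A B') (.imp B (.imp A D))))
      exact Bd_mono (Bd_imp (Bd_imp hB (Bd_neg hB')) e2) (by omega) (by omega) (by omega)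
  have h5 := can_mp h1 h4 (Bd_mono e2 (by omega) (by omega) (by omega))
  exact can_mono (can_mp h2 h5 (Bd_mono e1 (by omega) (by omega) (by omega))) (by omega)

/-- `(B → (A → C)) → ((C → D) → (B → (A → D)))` -/
theorem cut_d3 (hk : 40 ≤ k) {A B C D : Fo V} {a c d n1 n2 : ℕ} (hA : Bd a 3 0 A) (hB : Bd 1 0 0 B) (hC : Bd c 3 0 C)
    (hD : Bd d 5 0 D) (hL : 2 * a + 2 * c + 2 * d + 20 ≤ L) (h1 : Can m k Hyp (Bd L 8 3) n1 (.imp B (.imp A C)))
    (h2 : Can m k Hyp (Bd L 8 3) n2 (.imp C D)) :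
    Can m k Hyp (Bd L 8 3) (n1 + n2 + 3) (.imp B (.imp A D)) := by
  have e1 := Bd_imp hB (Bd_imp hA hD)
  have e2 := Bd_imp (Bd_imp hC hD) e1
  have h4 : Can m k Hyp (Bd L 8 3) 1 (.imp (.imp B (.imp A C)) (.imp (.imp C D) (.imp B (.imp A D)))) := by
    refine can_ax (ψ := Fm.imp (Fm.imp (Fm.var 0) (Fm.imp (Fm.var 1) (Fm.var 2))) (Fm.imp (Fm.imp (Fm.var 2) (Fm.var 3))
      (Fm.imp (Fm.var 0) (Fm.imp (Fm.var 1) (Fm.var 3)))))
      (σ := fun n => match n with
        | 0 => B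
        | 1 => A
        | 2 => C
        | _ => D) (by simp [Fm.len]; omega) (fun v _ => ?_) ?_
    · show (!(!(v B) || (!(v A) || v C)) || (!(!(v C) || v D) || (!(v B) || (!(v A) || v D)))) = true
      cases v A <;> cases v B <;> cases v C <;> cases v D <;> rfl
    · show Bd _ _ _ (Fo.imp (.imp B (.imp A C)) (.imp (.imp C D) (.imp B (.imp A D))))
      exact Bd_mono (Bd_imp (Bd_imp hB (Bd_imp hA hC)) e2) (by omega) (by omega) (by omega)
  have h5 := can_mp h1 h4 (Bd_mono e2 (by omega) (by omega) (by omega))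
  exact can_mono (can_mp h2 h5 (Bd_mono e1 (by omega) (by omega) (by omega))) (by omega)

/-- `x → (A → x)` -/
theorem kk_d3 (hk : 40 ≤ k) {x A : Fo V} {a : ℕ} (hx : Bd 1 0 0 x) (hA : Bd a 3 0 A) (hL : a + 10 ≤ L) :
    Can m k Hyp (Bd L 8 3) 1 (.imp x (.imp A x)) := by
  refine can_ax (ψ := Fm.imp (Fm.var 0) (Fm.imp (Fm.var 1) (Fm.var 0)))
    (σ := fun n => match n with
      | 0 => x
      | _ => A) (by simp [Fm.len]; omega) (fun v _ => ?_) ?_
  · show (!(v x) || (!(v A) || v x)) = true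
    cases v x <;> cases v A <;> rfl
  · show Bd _ _ _ (Fo.imp x (.imp A x))
    exact Bd_mono (Bd_imp hx (Bd_imp hA hx)) (by omega) (by omega) (by omega)

end Schemes

variable {N r m k L : ℕ} {S : Finset (Fin N)} {Q Q' : Finset (Finset (Fin N))}

theorem Bd_ps (hQ : Cm r S Q) : Bd (2 * S.card + 5) 3 0 (ps Q) := by
  have h1 := cm_qcard hQ
  refine Bd_mono (Bd_cj (∅ : Finset (Fin N)) Q.toList) ?_ le_rfl le_rfl
  rw [Finset.length_toList]
  omega

theorem ps_proj_d3 (hk : 40 ≤ k) (hQ : Cm r S Q) {B : Finset (Fin N)} (hB : B ∈ Q) (hL : 10 * S.card + 40 ≤ L)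
    {Hyp : Set (Fo (Finset (Fin N)))} :
    Can m k Hyp (Bd L 8 3) (2 * S.card) (.imp (ps Q) (.var B)) := by
  have h1 := cm_qcard hQ
  refine can_mono (cj_proj hk (∅ : Finset (Fin N)) Q.toList ?_ (Finset.mem_toList.2 hB)) ?_
  · rw [Finset.length_toList]
    omega
  · rw [Finset.length_toList]
    omega

/-- scheme `(ψ → x) → ((ψ' → x') → ((x → ¬x') → (ψ → ¬ψ')))`, `cm_ne`, `cj_proj` -/
theorem pair_ne (hk : 40 ≤ k) (hQ : Cm r S Q) (hQ' : Cm r S Q') (h : Q ≠ Q') (hL : 100 * (S.card + 1) ≤ L) :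
    Can m k (Count r N) (Bd L 8 3) (10 * (S.card + 1)) (.imp (ps Q) (.neg (ps Q'))) := by
  obtain ⟨a, B, B', hB, hB', haB, haB', hne⟩ := cm_ne hQ hQ' h
  have h1 : Can m k (Count r N) (Bd L 8 3) (2 * S.card) (.imp (ps Q) (.var B)) := ps_proj_d3 hk hQ hB (by omega)
  have h2 : Can m k (Count r N) (Bd L 8 3) (2 * S.card) (.imp (ps Q') (.var B')) := ps_proj_d3 hk hQ' hB' (by omega)
  have h3 : Can m k (Count r N) (Bd L 8 3) 1 (.imp (.var B) (.neg (.var B'))) := by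
    refine can_hyp (Or.inl ⟨a, B, B', haB, haB', hne, rfl⟩) ?_
    exact Bd_mono (Bd_imp (Bd_var B) (Bd_neg (Bd_var B'))) (by omega) (by omega) (by omega)
  exact can_mono (two_d3 hk (Bd_ps hQ) (Bd_ps hQ') (Bd_var B) (Bd_var B') (by omega) h1 h2 h3) (by omega)

/-- cases: `B ∈ Q` (`cm_mem`, `intro`); `B` disjoint from all members of `Q` (`cm_insert`, `cj_intro`, `cj_proj`,
`intro`); `B` meets another member of `Q` (hypothesis, `cj_proj`) -/
theorem pair_in (hk : 40 ≤ k) {a : Fin N} {B : Finset (Fin N)} (hB : B.card = r) (ha : a ∈ B) (hQ : Cm r S Q)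
    {x : Fo (Finset (Fin N))} {Y : List (Fo (Finset (Fin N)))} (hxY : rw1 r (insert a S) = x :: Y)
    (hL : 100 * ((2 * S.card + 9) * (Y.length + 1)) ≤ L) :
    Can m k (Count r N) (Bd L 8 3) (2 * (Y.length + 1) + 20 * (S.card + 1) ^ 2)
      (.imp (.var B) (.imp (ps Q) (dj x Y))) := by
  have hc : (insert a S).card ≤ S.card + 1 := Finset.card_insert_le a S
  have hmem : ∀ C ∈ x :: Y, Bd (2 * S.card + 7) 3 0 C := by
    intro C hC
    rw [← hxY, rw1, List.mem_map] at hC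
    obtain ⟨R, hR, rfl⟩ := hC
    exact Bd_mono (Bd_ps (mem_cm.1 (Finset.mem_toList.1 hR))) (by omega) le_rfl le_rfl
  have hin : ∀ R, Cm r (insert a S) R → ps R ∈ x :: Y := by
    intro R hR
    rw [← hxY, rw1, List.mem_map]
    exact ⟨R, Finset.mem_toList.2 (mem_cm.2 hR), rfl⟩
  have hd : Bd ((2 * S.card + 9) * (Y.length + 1)) 5 0 (dj x Y) := Bd_dj3 (s := 2 * S.card + 7) hmem
  have hw : 2 * S.card + 9 ≤ (2 * S.card + 9) * (Y.length + 1) := Nat.le_mul_of_pos_right _ (Nat.succ_pos _)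
  set w := (2 * S.card + 9) * (Y.length + 1) with hwdef
  have hint : ∀ R, Cm r (insert a S) R →
      Can m k (Count r N) (Bd L 8 3) (2 * (Y.length + 1)) (.imp (ps R) (dj x Y)) := by
    intro R hR
    refine intro hk (s := 2 * S.card + 7) x Y hmem ?_ (hin R hR)
    show 4 * w + 20 ≤ L
    omega
  have hpQ := Bd_ps hQ
  have hsq : S.card + 1 ≤ (S.card + 1) ^ 2 := Nat.le_self_pow two_ne_zero _
  by_cases hBQ : B ∈ Q
  · have h1 := wk_d3 hk (Bd_mono (Bd_var B) le_rfl (Nat.zero_le 3) le_rfl)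
      (Bd_mono (Bd_imp hpQ hd) le_rfl (show _ ≤ 6 by omega) le_rfl) (by omega) (hint Q (cm_mem hQ hBQ ha))
    exact can_mono h1 (by omega)
  · by_cases hdis : ∀ B' ∈ Q, Disjoint B B'
    · have hI := cm_insert hQ hB ha hdis
      have hIc : (insert B Q).toList.length ≤ S.card + 1 := by
        rw [Finset.length_toList]
        exact (Finset.card_insert_le _ _).trans (Nat.succ_le_succ (cm_qcard hQ))
      have h1 : Can m k (Count r N) (Bd L 8 3) ((2 * S.card + 2 + 3) * (insert B Q).toList.length + 1)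
          (.imp (.var B) (.imp (ps Q) (ps (insert B Q)))) := by
        refine cj_intro hk (Bd_mono (Bd_var B) le_rfl (Nat.zero_le 3) le_rfl) hpQ (∅ : Finset (Fin N))
          (insert B Q).toList (by omega) ?_
        intro y hy
        rw [Finset.mem_toList, Finset.mem_insert] at hy
        rcases hy with rfl | hy
        · exact can_mono (kk_d3 hk (Bd_var y) hpQ (by omega)) (by omega)
        · exact wk_d3 hk (Bd_mono (Bd_var B) le_rfl (Nat.zero_le 3) le_rfl)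
            (Bd_mono (Bd_imp hpQ (Bd_var y)) le_rfl (show _ ≤ 6 by omega) le_rfl) (by omega)
            (ps_proj_d3 hk hQ hy (by omega))
      have h2 := cut_d3 hk hpQ (Bd_var B) (Bd_ps hI) hd (by omega) h1 (hint _ hI)
      refine can_mono h2 ?_
      have h3 : (2 * S.card + 2 + 3) * (insert B Q).toList.length ≤ (2 * S.card + 2 + 3) * (S.card + 1) :=
        Nat.mul_le_mul_left _ hIc
      have h4 : (2 * S.card + 2 + 3) * (S.card + 1) ≤ 5 * (S.card + 1) ^ 2 := by nlinarith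
      omega
    · push Not at hdis
      obtain ⟨B', hB', hnd⟩ := hdis
      rw [Finset.not_disjoint_iff] at hnd
      obtain ⟨b, hb, hb'⟩ := hnd
      have hne : B ≠ B' := fun h => hBQ (h ▸ hB')
      have h3 : Can m k (Count r N) (Bd L 8 3) 1 (.imp (.var B) (.neg (.var B'))) := by
        refine can_hyp (Or.inl ⟨b, B, B', hb, hb', hne, rfl⟩) ?_
        exact Bd_mono (Bd_imp (Bd_var B) (Bd_neg (Bd_var B'))) (by omega) (by omega) (by omega)
      have h4 := abs_d3 hk hpQ (Bd_var B) (Bd_var B') hd (by omega) h3 (ps_proj_d3 (m := m) hk hQ hB' (by omega))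
      exact can_mono h4 (by omega)

end Pool.Agent.H85.FW
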