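import Mathlib
import Pool.Agent.H85.FW.Der3

/-!
# AtL: at least one member of each row is true
-/

set_option autoImplicit false

namespace Pool.Agent.H85.FW

open Pool.Agent.H3.Frg Pool.Agent.H3.Frg2 Pool.Agent.H67.FG Pool.Agent.H85.FG Pool.Agent.H93.RG

variable {N : ℕ}

theorem mem_rw1 {r : ℕ} {S : Finset (Fin N)} {C : Fo (Finset (Fin N))} (h : C ∈ rw1 r S) :
    ∃ Q, Cm r S Q ∧ C = ps Q := by
  unfold rw1 at h
  obtain ⟨Q, hQ, rfl⟩ := List.mem_map.1 h
  exact ⟨Q, mem_cm.1 (Finset.mem_toList.1 hQ), rfl⟩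

theorem rw1_length (r : ℕ) (S : Finset (Fin N)) : (rw1 r S).length ≤ (N ^ r) ^ S.card := by
  unfold rw1
  rw [List.length_map, Finset.length_toList]
  exact cm_card r S

theorem rw1_ne {r : ℕ} {S : Finset (Fin N)} (hS : S.card ≤ r) (hr : r ≤ N) :
    ∃ (x : Fo (Finset (Fin N))) (Y : List (Fo (Finset (Fin N)))), rw1 r S = x :: Y := by
  refine List.exists_cons_of_ne_nil fun h => ?_
  obtain ⟨Q, hQ⟩ := cm_nonempty hS hr
  have : ps Q ∈ rw1 r S := List.mem_map.2 ⟨Q, Finset.mem_toList.2 hQ, rfl⟩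
  rw [h] at this
  exact List.not_mem_nil this

/-- Induction over `S`: `∅`: the row is `[ps ∅]`, `ps ∅ = ¬¬(z → z)`. `insert a S`: for each `Q ∈ cm r S` by `elim`
over the blocks `B` at `a` (`pair_in`, hypothesis `V.row_hyp`): `ps Q → dj` of the new row; then `elim` over `Q`. -/
theorem at_least {r m k L q : ℕ} (hk : 40 ≤ k) (hr : 1 ≤ r) (hrN : r ≤ N) (hq : q ≤ r)
    (hL : 1000 * ((q + 1) * N ^ r * (N ^ r) ^ q) ≤ L) (S : Finset (Fin N)) (hS : S.card ≤ q)
    (x : Fo (Finset (Fin N))) (Y : List (Fo (Finset (Fin N)))) (hxY : rw1 r S = x :: Y) :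
    Can m k (Count r N) (Bd L 8 3)
      (S.card * ((N ^ r) ^ q * (N ^ r * (2 * (N ^ r) ^ q + 20 * (q + 1) ^ 2 + 3) + 5) + 1) + 1) (dj x Y) := by
  have hN1 : 1 ≤ N := by omega
  have hP : 1 ≤ N ^ r := Nat.one_le_pow _ _ hN1
  have hM : 1 ≤ (N ^ r) ^ q := Nat.one_le_pow _ _ hP
  have hlen : ∀ T : Finset (Fin N), T.card ≤ q → (rw1 r T).length ≤ (N ^ r) ^ q := fun T hT =>
    (rw1_length r T).trans (Nat.pow_le_pow_right hP hT)
  have hrow : ∀ a : Fin N, (V.row r a).length ≤ N ^ r := V.row_length r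
  have hT1 : (q + 1) * (N ^ r) ^ q ≤ (q + 1) * N ^ r * (N ^ r) ^ q :=
    Nat.mul_le_mul_right _ (Nat.le_mul_of_pos_right _ hP)
  have hT2 : N ^ r ≤ (q + 1) * N ^ r * (N ^ r) ^ q := by
    calc N ^ r = 1 * N ^ r * 1 := by ring
      _ ≤ (q + 1) * N ^ r * (N ^ r) ^ q := Nat.mul_le_mul (Nat.mul_le_mul_right _ (by omega)) hM
  have hT3 : (q + 1) ≤ (q + 1) * (N ^ r) ^ q := Nat.le_mul_of_pos_right _ hM
  generalize hPP : N ^ r = P at *
  generalize hMM : P ^ q = M at *
  generalize hTT : (q + 1) * P * M = T at *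
  induction S using Finset.induction_on generalizing x Y with
  | empty =>
    have h0 : rw1 r (∅ : Finset (Fin N)) = [ps ∅] := by
      unfold rw1
      rw [cm_empty, Finset.toList_singleton]
      rfl
    rw [h0] at hxY
    obtain ⟨rfl, rfl⟩ := List.cons.inj hxY
    have h1 : ps (∅ : Finset (Finset (Fin N))) = .neg (.neg (.imp (.var ∅) (.var ∅))) := by
      unfold ps
      rw [Finset.toList_empty]
      rfl
    rw [Finset.card_empty, Nat.zero_mul, Nat.zero_add, dj, h1]
    refine can_ax (ψ := Fm.neg (Fm.neg (Fm.imp (Fm.var 0) (Fm.var 0)))) (σ := fun _ => .var ∅)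
      (by simp [Fm.len]; omega) (fun v _ => ?_) ?_
    · simp [Fm.eval]
    · show Bd L 8 3 (.neg (.neg (.imp (.var ∅) (.var ∅))))
      exact Bd_mono (Bd_neg (Bd_neg (Bd_imp (Bd_var _) (Bd_var _)))) (by omega) (by omega) (by omega)
  | insert a S ha ih =>
    have hc : (insert a S).card = S.card + 1 := Finset.card_insert_of_notMem ha
    rw [hc] at hS ⊢
    obtain ⟨x', Y', hxY'⟩ := rw1_ne (r := r) (S := S) (by omega) hrN
    obtain ⟨u, U, huU⟩ := V.row_ne hr hrN a
    have ih1 := ih (by omega) x' Y' hxY'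
    have hY : Y.length + 1 ≤ M := by
      have := hlen (insert a S) (by omega)
      rw [hxY] at this
      exact this
    have hY' : Y'.length + 1 ≤ M := by
      have := hlen S (by omega)
      rw [hxY'] at this
      exact this
    have hU : U.length + 1 ≤ P := by
      have := hrow a
      rw [huU] at this
      exact this
    -- the members of the rows
    have hm : ∀ B ∈ x :: Y, Bd (2 * (S.card + 1) + 5) 3 0 B := by
      intro B hB
      rw [← hxY] at hB
      obtain ⟨Q, hQ, rfl⟩ := mem_rw1 hB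
      have := Bd_ps hQ
      rwa [hc] at this
    have hm' : ∀ B ∈ x' :: Y', Bd (2 * S.card + 5) 3 0 B := by
      intro B hB
      rw [← hxY'] at hB
      obtain ⟨Q, hQ, rfl⟩ := mem_rw1 hB
      exact Bd_ps hQ
    have hmu : ∀ B ∈ u :: U, Bd 1 3 0 B := by
      intro B hB
      rw [← huU] at hB
      obtain ⟨z, rfl⟩ := V.row_var r a B hB
      exact Bd_mono (Bd_var z) le_rfl (by omega) le_rfl
    have hG := Bd_dj3 hm
    -- bounds
    have e1 : (2 * (S.card + 1) + 5 + 2) * (Y.length + 1) ≤ 7 * T := by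
      have h1 : (2 * (S.card + 1) + 5 + 2) * (Y.length + 1) ≤ (7 * (q + 1)) * M := Nat.mul_le_mul (by omega) hY
      have h2 : (7 * (q + 1)) * M = 7 * ((q + 1) * M) := by ring
      omega
    have e2 : (2 * S.card + 5 + 2) * (Y'.length + 1) ≤ 7 * T := by
      have h1 : (2 * S.card + 5 + 2) * (Y'.length + 1) ≤ (7 * (q + 1)) * M := Nat.mul_le_mul (by omega) hY'
      have h2 : (7 * (q + 1)) * M = 7 * ((q + 1) * M) := by ring
      omega
    have e3 : (2 * S.card + 9) * (Y.length + 1) ≤ 9 * T := by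
      have h1 : (2 * S.card + 9) * (Y.length + 1) ≤ (9 * (q + 1)) * M := Nat.mul_le_mul (by omega) hY
      have h2 : (9 * (q + 1)) * M = 9 * ((q + 1) * M) := by ring
      omega
    have key : ∀ C ∈ x' :: Y', Can m k (Count r N) (Bd L 8 3) ((2 * M + 20 * (q + 1) ^ 2 + 3) * P + 2)
        (.imp C (dj x Y)) := by
      intro C hC
      have hC' := hm' C hC
      rw [← hxY'] at hC
      obtain ⟨Q, hQ, rfl⟩ := mem_rw1 hC
      have hG2 : Bd (2 * S.card + 5 + (2 * (S.card + 1) + 5 + 2) * (Y.length + 1) + 1) 5 0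
          (.imp (ps Q) (dj x Y)) := Bd_mono (Bd_imp hC' hG) le_rfl (by omega) le_rfl
      have h1 := elim (m := m) (k := k) (L := L) (Hyp := Count r N) (s := 1)
        (c := 2 * (Y.length + 1) + 20 * (S.card + 1) ^ 2) hk hG2 u U hmu (by omega)
        (by
          intro D hD
          rw [← huU] at hD
          unfold V.row at hD
          obtain ⟨B, hB, rfl⟩ := List.mem_map.1 hD
          obtain ⟨b1, b2⟩ := V.mem_blk.1 (Finset.mem_toList.1 hB)
          exact pair_in hk b1 b2 hQ hxY (by omega))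
      have h2 := can_mp (can_hyp (V.row_hyp a u U huU) (Bd_mono (Bd_dj3 hmu) (by omega) (by omega) (by omega))) h1
        (Bd_mono hG2 (by omega) (by omega) (by omega))
      refine can_mono h2 ?_
      have h3 : (S.card + 1) ^ 2 ≤ (q + 1) ^ 2 := Nat.pow_le_pow_left (by omega) 2
      have h4 : (2 * (Y.length + 1) + 20 * (S.card + 1) ^ 2 + 3) * (U.length + 1) ≤
          (2 * M + 20 * (q + 1) ^ 2 + 3) * P := Nat.mul_le_mul (by omega) hU
      omega
    have h5 := elim (m := m) (k := k) (L := L) (Hyp := Count r N) (s := 2 * S.card + 5) hk hG x' Y' hm'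
      (by omega) key
    have h6 := can_mp ih1 h5 (Bd_mono hG (by omega) (by omega) (by omega))
    refine can_mono h6 ?_
    have h7 : ((2 * M + 20 * (q + 1) ^ 2 + 3) * P + 2 + 3) * (Y'.length + 1) ≤
        ((2 * M + 20 * (q + 1) ^ 2 + 3) * P + 2 + 3) * M := Nat.mul_le_mul_left _ hY'
    have h8 : ((2 * M + 20 * (q + 1) ^ 2 + 3) * P + 2 + 3) * M =
        M * (P * (2 * M + 20 * (q + 1) ^ 2 + 3) + 5) := by ring
    have h9 : (S.card + 1) * (M * (P * (2 * M + 20 * (q + 1) ^ 2 + 3) + 5) + 1) =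
        S.card * (M * (P * (2 * M + 20 * (q + 1) ^ 2 + 3) + 5) + 1) +
        (M * (P * (2 * M + 20 * (q + 1) ^ 2 + 3) + 5) + 1) := by ring
    rw [h9]
    omega

end Pool.Agent.H85.FW
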