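import Mathlib
import Pool.Agent.H85.FW.W0
import Pool.Agent.H61.FW.Cho
import Pool.Agent.H39.FW.CmDvd

/-!
# Comb1: divisibility (helper61, helper39)
-/

set_option autoImplicit false

namespace Pool.Agent.H85.FW

variable {N : ℕ}

/-- `s C(r,s) = r C(r-1,s-1)` -/
theorem choose_dvd {p j r s : ℕ} (hp : p.Prime) (hr : p ^ (j + 1) ∣ r) (hs : 1 ≤ s) (hs' : s < p ^ (j + 1)) :
    p ∣ r.choose s := choose_dvd_61 hp hr hs hs'

/-- Lucas: `C(p^j u, p^j)` is `u` modulo `p` -/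
theorem choose_ndvd {p j : ℕ} (hp : p.Prime) (h1 : p ^ j ∣ N) (h2 : ¬ p ^ (j + 1) ∣ N) : ¬ p ∣ N.choose (p ^ j) :=
  choose_ndvd_61 hp h1 h2

open Classical in
/-- the number of rows of `Q` (fibres over `S \ B0`, `B0 ∈ Q`, and `choose_dvd`) -/
theorem cm_dvd {p j q r : ℕ} (hp : p.Prime) (hr : p ^ (j + 1) ∣ r) (hq : 1 ≤ q) (hq' : q < p ^ (j + 1))
    (Q : Finset (Finset (Fin N))) :
    p ∣ ((Finset.powersetCard q (Finset.univ : Finset (Fin N))).filter fun S => Cm r S Q).card :=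
  cm_dvd39 (fun _ h1 h2 => choose_dvd hp hr h1 h2) hq hq' Q

end Pool.Agent.H85.FW
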