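import Mathlib
import Pool.Agent.H85.FW.Comb1

/-!
# Fin1: all rows; the number of true members is divisible by `p`
-/

set_option autoImplicit false

namespace Pool.Agent.H85.FW

open Pool.Agent.H67.FG Pool.Agent.H85.FG Pool.Agent.H93.RG

/-- the first `i` rows -/
noncomputable def rws (r q N i : ℕ) : List (Fo (Finset (Fin N))) :=
  ((Finset.powersetCard q (Finset.univ : Finset (Fin N))).toList.take i).flatMap (rw1 r)

/-- sum over the sets `Q` of the number of their rows (`cm_dvd`), like `V.dvd_rows` -/
theorem dvd_rws {p j q r N : ℕ} (hp : p.Prime) (hr : p ^ (j + 1) ∣ r) (hq : 1 ≤ q) (hq' : q < p ^ (j + 1))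
    (w : Fo (Finset (Fin N)) → Bool) : p ∣ (rws r q N (N.choose q)).countP w := by
  classical
  have h1 : (rws r q N (N.choose q)).countP w =
      ∑ S ∈ Finset.powersetCard q (Finset.univ : Finset (Fin N)), ((cm r S).filter fun Q => w (ps Q) = true).card := by
    unfold rws
    rw [List.take_of_length_le (by
      rw [Finset.length_toList, Finset.card_powersetCard, Finset.card_univ, Fintype.card_fin]),
      List.countP_flatMap, ← Finset.sum_map_toList]
    congr 1
    refine List.map_congr_left fun S _ => ?_
    show (rw1 r S).countP w = _
    unfold rw1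
    rw [List.countP_map, List.countP_eq_length_filter, ← Finset.length_toList]
    have h2 : ((cm r S).filter fun Q => w (ps Q) = true).toList.Perm ((cm r S).toList.filter (w ∘ ps)) := by
      rw [List.perm_ext_iff_of_nodup (Finset.nodup_toList _) ((Finset.nodup_toList _).filter _)]
      intro e
      simp [Finset.mem_toList, List.mem_filter]
    exact h2.length_eq.symm
  have h3 : ∑ S ∈ Finset.powersetCard q (Finset.univ : Finset (Fin N)), ((cm r S).filter fun Q => w (ps Q) = true).card
      = ∑ Q ∈ Finset.univ.filter (fun Q : Finset (Finset (Fin N)) => w (ps Q) = true),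
        ((Finset.powersetCard q (Finset.univ : Finset (Fin N))).filter fun S => Cm r S Q).card := by
    have h4 : ∀ S : Finset (Fin N), ((cm r S).filter fun Q => w (ps Q) = true).card =
        ∑ Q ∈ Finset.univ.filter (fun Q : Finset (Finset (Fin N)) => w (ps Q) = true), if Cm r S Q then 1 else 0 := by
      intro S
      rw [← Finset.card_filter]
      congr 1
      ext Q
      simp only [cm, Finset.mem_filter, Finset.mem_univ, true_and]
      tauto
    rw [Finset.sum_congr rfl fun S _ => h4 S, Finset.sum_comm]
    refine Finset.sum_congr rfl fun Q _ => ?_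
    rw [← Finset.card_filter]
  rw [h1, h3]
  refine Finset.dvd_sum fun Q _ => ?_
  have h5 := cm_dvd (N := N) hp hr hq hq' Q
  convert h5

end Pool.Agent.H85.FW
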