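import Mathlib

/-!
# Num: the size
-/

set_option autoImplicit false

namespace Pool.Agent.H85.FW

theorem num_aux {A R M q K : ℕ} (hA : 4 ≤ A) (hR : (q + 1) ^ 2 ≤ R) (hM : 1 ≤ M) (hq : 1 ≤ q)
    (key : q * (q + 1) * (A ^ 2 * R ^ 3 * M ^ 2) ≤ K) :
    (M * (q * (R * (A * (2 * R + 20 * (q + 1) ^ 2 + 3) + 5) + 1) + 1 + (10 * (q + 1) + 12) * R ^ 2 + 5) + 6) *
      (1000 * ((q + 1) * A * R * M)) ≤ 10 ^ 5 * K := by
  have hR1 : 1 ≤ R := le_trans (Nat.one_le_pow _ _ (by omega)) hR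
  have s1 : 2 * R + 20 * (q + 1) ^ 2 + 3 ≤ 25 * R := by omega
  have hAR : 1 ≤ A * R := Nat.mul_pos (by omega) hR1
  have s2 : A * (2 * R + 20 * (q + 1) ^ 2 + 3) + 5 ≤ 30 * (A * R) := by
    have := Nat.mul_le_mul_left A s1
    have e : A * (25 * R) = 25 * (A * R) := by ring
    omega
  have hARR : 1 ≤ A * R * R := Nat.mul_pos hAR hR1
  have s3 : R * (A * (2 * R + 20 * (q + 1) ^ 2 + 3) + 5) + 1 ≤ 31 * (A * R * R) := by
    have := Nat.mul_le_mul_left R s2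
    have e : R * (30 * (A * R)) = 30 * (A * R * R) := by ring
    omega
  have s4 : q * (R * (A * (2 * R + 20 * (q + 1) ^ 2 + 3) + 5) + 1) ≤ 31 * (q * (A * R * R)) := by
    have := Nat.mul_le_mul_left q s3
    have e : q * (31 * (A * R * R)) = 31 * (q * (A * R * R)) := by ring
    omega
  have s5 : (10 * (q + 1) + 12) * R ^ 2 ≤ 8 * (q * (A * R * R)) := by
    have h1 : (10 * (q + 1) + 12) * R ^ 2 ≤ (32 * q) * R ^ 2 := Nat.mul_le_mul_right _ (by omega)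
    have h2 : (8 * q * R ^ 2) * 4 ≤ (8 * q * R ^ 2) * A := Nat.mul_le_mul_left _ hA
    have e1 : (32 * q) * R ^ 2 = (8 * q * R ^ 2) * 4 := by ring
    have e2 : (8 * q * R ^ 2) * A = 8 * (q * (A * R * R)) := by ring
    omega
  have s6 : 6 ≤ 2 * (q * (A * R * R)) := by
    have : 4 * 1 * 1 ≤ A * R * R := Nat.mul_le_mul (Nat.mul_le_mul hA hR1) hR1
    have := Nat.mul_le_mul hq this
    omega
  have s7 : q * (R * (A * (2 * R + 20 * (q + 1) ^ 2 + 3) + 5) + 1) + 1 + (10 * (q + 1) + 12) * R ^ 2 + 5 ≤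
      41 * (q * (A * R * R)) := by omega
  have s8 : M * (q * (R * (A * (2 * R + 20 * (q + 1) ^ 2 + 3) + 5) + 1) + 1 + (10 * (q + 1) + 12) * R ^ 2 + 5) + 6 ≤
      43 * (q * (A * R * R) * M) := by
    have h1 := Nat.mul_le_mul_left M s7
    have e : M * (41 * (q * (A * R * R))) = 41 * (q * (A * R * R) * M) := by ring
    have h2 := Nat.mul_le_mul s6 hM
    have e2 : 2 * (q * (A * R * R)) * M = 2 * (q * (A * R * R) * M) := by ring
    omega
  calc _ ≤ 43 * (q * (A * R * R) * M) * (1000 * ((q + 1) * A * R * M)) := Nat.mul_le_mul_right _ s8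
    _ = 43000 * (q * (q + 1) * (A ^ 2 * R ^ 3 * M ^ 2)) := by ring
    _ ≤ 43000 * K := Nat.mul_le_mul_left _ key
    _ ≤ 10 ^ 5 * K := Nat.mul_le_mul_right _ (by norm_num)

theorem num {N r q : ℕ} (hr : 2 ≤ r) (hrN : r ≤ N) (hq1 : 1 ≤ q) (hq : q + 1 ≤ r) :
    (N ^ q * (q * ((N ^ r) ^ q * (N ^ r * (2 * (N ^ r) ^ q + 20 * (q + 1) ^ 2 + 3) + 5) + 1) + 1 +
      (10 * (q + 1) + 12) * ((N ^ r) ^ q) ^ 2 + 5) + 6) * (1000 * ((q + 1) * N ^ r * (N ^ r) ^ q * N ^ q)) ≤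
      10 ^ 5 * N ^ (4 * r ^ 2) := by
  have hN : 2 ≤ N := by omega
  refine num_aux ?_ ?_ (Nat.one_le_pow _ _ (by omega)) hq1 ?_
  · calc 4 = 2 ^ 2 := by norm_num
      _ ≤ N ^ 2 := Nat.pow_le_pow_left hN 2
      _ ≤ N ^ r := Nat.pow_le_pow_right (by omega) hr
  · calc (q + 1) ^ 2 ≤ N ^ 2 := Nat.pow_le_pow_left (by omega) 2
      _ ≤ N ^ (r * q) := Nat.pow_le_pow_right (by omega) (by nlinarith)
      _ = (N ^ r) ^ q := by rw [pow_mul]
  · have e : (N ^ r) ^ 2 * ((N ^ r) ^ q) ^ 3 * (N ^ q) ^ 2 = N ^ (2 * r + 3 * (r * q) + 2 * q) := by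
      rw [← pow_mul, ← pow_mul, ← pow_mul, ← pow_mul, ← pow_add, ← pow_add]
      congr 1
      ring
    have h1 : q * (q + 1) ≤ N ^ 2 := by
      rw [pow_two]
      exact Nat.mul_le_mul (by omega) (by omega)
    have h2 : r * (q + 1) ≤ r * r := Nat.mul_le_mul_left _ hq
    have h3 : r * 1 ≤ r * r := Nat.mul_le_mul_left _ (by omega)
    calc _ ≤ N ^ 2 * N ^ (2 * r + 3 * (r * q) + 2 * q) := by
          rw [e]
          exact Nat.mul_le_mul_right _ h1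
      _ = N ^ (2 + (2 * r + 3 * (r * q) + 2 * q)) := (pow_add _ _ _).symm
      _ ≤ N ^ (4 * r ^ 2) := Nat.pow_le_pow_right (by omega) (by nlinarith)

end Pool.Agent.H85.FW
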