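import Mathlib
import Pool.Agent.H85.FW.Der1

/-!
# One: exactly one of the members of a list is true (members with at most `s` symbols, without gates)
-/

set_option autoImplicit false

namespace Pool.Agent.H85.FW

open Pool.Agent.H3.Frg Pool.Agent.H3.Frg2 Pool.Agent.H67.FG Pool.Agent.H85.FG Pool.Agent.H93.RG

variable {V : Type} {m k L s c : ℕ} {Hyp : Set (Fo V)}

theorem gam3 (hk : 40 ≤ k) (x y : Fo V) (Y : List (Fo V)) (hxs : Bd s 3 0 x) (hY : ∀ B ∈ y :: Y, Bd s 3 0 B)
    (hL : 10 * ((s + 2) * (Y.length + 1)) + 10 * s + 40 ≤ L)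
    (hx : ∀ B ∈ y :: Y, Can m k Hyp (Bd L 8 3) c (.imp x (.neg B))) :
    Can m k Hyp (Bd L 8 3) ((c + 3) * (Y.length + 1)) (.imp x (.neg (dj y Y))) := by
  induction Y generalizing y with
  | nil => exact can_mono (hx y (by simp)) (by simp)
  | cons y' Y ih =>
    have hY' : ∀ B ∈ y' :: Y, Bd s 3 0 B := fun B hB => hY B (List.mem_cons_of_mem _ hB)
    have hd : Bd ((s + 2) * (Y.length + 1)) 5 0 (dj y' Y) := Bd_dj3 hY'
    have e : (s + 2) * ((y' :: Y).length + 1) = (s + 2) * (Y.length + 1) + (s + 2) := by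
      rw [List.length_cons]; ring
    rw [e] at hL
    have hy : Bd s 3 0 y := hY y (by simp)
    have h1 := hx y (by simp)
    have h2 := ih y' hY' (by omega) (fun B hB => hx B (List.mem_cons_of_mem _ hB))
    generalize (s + 2) * (Y.length + 1) = D at hd hL
    have hc : Bd (2 * s + D + 5) 6 0 (.imp x (.neg (.imp (.neg y) (dj y' Y)))) :=
      Bd_mono (Bd_imp hxs (Bd_neg (Bd_imp (Bd_neg hy) hd))) (by omega) (by omega) (by omega)
    have hb : Bd (3 * s + 2 * D + 8) 7 0
        (.imp (.imp x (.neg (dj y' Y))) (.imp x (.neg (.imp (.neg y) (dj y' Y))))) :=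
      Bd_mono (Bd_imp (Bd_imp hxs (Bd_neg hd)) hc) (by omega) (by omega) (by omega)
    have h3 : Can m k Hyp (Bd L 8 3) 1 (.imp (.imp x (.neg y))
        (.imp (.imp x (.neg (dj y' Y))) (.imp x (.neg (.imp (.neg y) (dj y' Y)))))) := by
      refine can_ax (ψ := Fm.imp (Fm.imp (Fm.var 0) (Fm.neg (Fm.var 1))) (Fm.imp (Fm.imp (Fm.var 0) (Fm.neg (Fm.var 2)))
        (Fm.imp (Fm.var 0) (Fm.neg (Fm.imp (Fm.neg (Fm.var 1)) (Fm.var 2))))))
        (σ := fun n => match n with
          | 0 => x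
          | 1 => y
          | _ => dj y' Y) (by simp [Fm.len]; omega) (fun v hv => ?_) ?_
      · show (!(!(v x) || !(v y)) || (!(!(v x) || !(v (dj y' Y))) ||
          (!(v x) || !(!(!(v y)) || v (dj y' Y))))) = true
        cases v x <;> cases v y <;> cases v (dj y' Y) <;> rfl
      · show Bd _ _ _ (Fo.imp (.imp x (.neg y))
          (.imp (.imp x (.neg (dj y' Y))) (.imp x (.neg (.imp (.neg y) (dj y' Y))))))
        exact Bd_mono (Bd_imp (Bd_imp hxs (Bd_neg hy)) hb) (by omega) (by omega) (by omega)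
    have h4 := can_mp h1 h3 (Bd_mono hb (by omega) (by omega) (by omega))
    have h5 := can_mp h2 h4 (Bd_mono hc (by omega) (by omega) (by omega))
    refine can_mono h5 ?_
    rw [List.length_cons]
    have : (c + 3) * (Y.length + 1 + 1) = (c + 3) * (Y.length + 1) + (c + 3) := by ring
    omega

theorem alp3 (hk : 40 ≤ k) (x : Fo V) (Y : List (Fo V)) (hY : ∀ B ∈ x :: Y, Bd s 3 0 B)
    (hL : 10 * ((s + 2) * (Y.length + 1)) + 40 ≤ L) :
    Can m k Hyp (Bd L 8 3) (3 * (Y.length + 1)) (.imp (.neg (dj x Y)) (gt 0 (x :: Y))) := by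
  induction Y generalizing x with
  | nil =>
    have hx : Bd s 3 0 x := hY x (by simp)
    have hg := Bd_gt3 0 hY
    simp only [List.length_nil, List.length_cons, zero_add, mul_one] at hL hg
    refine can_mono ?_ (show 1 ≤ _ by simp)
    refine can_ax (ψ := Fm.imp (Fm.neg (Fm.var 0)) (Fm.var 1))
      (σ := fun n => match n with
        | 0 => x
        | _ => gt 0 [x]) (by simp [Fm.len]; omega) (fun v hv => ?_) ?_
    · show (!(!(v x)) || v (gt 0 [x])) = true
      rw [resp_gt hv]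
      by_cases h : v x = true <;> simp [h]
    · show Bd _ _ _ (Fo.imp (.neg x) (gt 0 [x]))
      exact Bd_mono (Bd_imp (Bd_neg hx) hg) (by omega) (by omega) (by omega)
  | cons y Y ih =>
    have hx : Bd s 3 0 x := hY x (by simp)
    have hY' : ∀ B ∈ y :: Y, Bd s 3 0 B := fun B hB => hY B (List.mem_cons_of_mem _ hB)
    have hd : Bd ((s + 2) * (Y.length + 1)) 5 0 (dj y Y) := Bd_dj3 hY'
    have he : Bd (s * (y :: Y).length + 1) 3 1 (gt 0 (y :: Y)) := Bd_gt3 0 hY'
    have he' : Bd (s * (x :: y :: Y).length + 1) 3 1 (gt 0 (x :: y :: Y)) := Bd_gt3 0 hY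
    have h1 := ih y hY'
    have e : (s + 2) * ((y :: Y).length + 1) = (s + 2) * (Y.length + 1) + (s + 2) := by
      rw [List.length_cons]; ring
    have e1 : s * (y :: Y).length + 1 ≤ (s + 2) * (Y.length + 1) := by
      rw [List.length_cons]; nlinarith
    have e2 : s * (x :: y :: Y).length + 1 ≤ (s + 2) * (Y.length + 1) + s := by
      rw [List.length_cons, List.length_cons]; nlinarith
    rw [e] at hL
    replace he := Bd_mono he e1 le_rfl le_rfl
    replace he' := Bd_mono he' e2 le_rfl le_rfl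
    generalize (s + 2) * (Y.length + 1) = D at hd hL he he' h1
    replace h1 := h1 (by omega)
    have hb : Bd (2 * D + 2 * s + 5) 7 1 (.imp (.neg (.imp (.neg x) (dj y Y))) (gt 0 (x :: y :: Y))) :=
      Bd_mono (Bd_imp (Bd_neg (Bd_imp (Bd_neg hx) hd)) he') (by omega) (by omega) (by omega)
    have h3 : Can m k Hyp (Bd L 8 3) 1 (.imp (.imp (.neg (dj y Y)) (gt 0 (y :: Y)))
        (.imp (.neg (.imp (.neg x) (dj y Y))) (gt 0 (x :: y :: Y)))) := by
      refine can_ax (ψ := Fm.imp (Fm.imp (Fm.neg (Fm.var 0)) (Fm.var 1))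
        (Fm.imp (Fm.neg (Fm.imp (Fm.neg (Fm.var 2)) (Fm.var 0))) (Fm.var 3)))
        (σ := fun n => match n with
          | 0 => dj y Y
          | 1 => gt 0 (y :: Y)
          | 2 => x
          | _ => gt 0 (x :: y :: Y)) (by simp [Fm.len]; omega) (fun v hv => ?_) ?_
      · show (!(!(!(v (dj y Y))) || v (gt 0 (y :: Y))) || (!(!(!(!(v x)) || v (dj y Y))) || v (gt 0 (x :: y :: Y)))) = true
        rw [resp_gt hv, resp_gt hv, List.countP_cons (l := y :: Y)]
        generalize (y :: Y).countP v = c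
        by_cases h : v x = true
        · simp [h]
        · have h' : v x = false := by simpa using h
          cases hdd : v (dj y Y) <;> by_cases h0 : c % m = 0 <;> simp [h', h0]
      · show Bd _ _ _ (Fo.imp (.imp (.neg (dj y Y)) (gt 0 (y :: Y)))
          (.imp (.neg (.imp (.neg x) (dj y Y))) (gt 0 (x :: y :: Y))))
        exact Bd_mono (Bd_imp (Bd_imp (Bd_neg hd) he) hb) (by omega) (by omega) (by omega)
    have h4 := can_mp h1 h3 (Bd_mono hb (by omega) (by omega) (by omega))
    exact can_mono h4 (by simp only [List.length_cons]; omega)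

theorem bet3 (hk : 40 ≤ k) (x : Fo V) (Y : List (Fo V)) (hY : ∀ B ∈ x :: Y, Bd s 3 0 B)
    (hL : 20 * ((s + 2) * (Y.length + 1)) + 80 ≤ L)
    (hex : List.Pairwise (fun A B => Can m k Hyp (Bd L 8 3) c (.imp A (.neg B))) (x :: Y)) :
    Can m k Hyp (Bd L 8 3) ((c + 12) * (Y.length + 1) ^ 2) (.imp (dj x Y) (gt 1 (x :: Y))) := by
  induction Y generalizing x with
  | nil =>
    have hx : Bd s 3 0 x := hY x (by simp)
    have hg := Bd_gt3 1 hY
    simp only [List.length_nil, List.length_cons, zero_add, mul_one] at hL hg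
    refine can_mono ?_ (show 1 ≤ _ by simp)
    refine can_ax (ψ := Fm.imp (Fm.var 0) (Fm.var 1))
      (σ := fun n => match n with
        | 0 => x
        | _ => gt 1 [x]) (by simp [Fm.len]; omega) (fun v hv => ?_) ?_
    · show (!(v x) || v (gt 1 [x])) = true
      rw [resp_gt hv]
      by_cases h : v x = true <;> simp [h]
    · show Bd _ _ _ (Fo.imp x (gt 1 [x]))
      exact Bd_mono (Bd_imp hx hg) (by omega) (by omega) (by omega)
  | cons y Y ih =>
    have hx : Bd s 3 0 x := hY x (by simp)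
    have hY' : ∀ B ∈ y :: Y, Bd s 3 0 B := fun B hB => hY B (List.mem_cons_of_mem _ hB)
    have hd : Bd ((s + 2) * (Y.length + 1)) 5 0 (dj y Y) := Bd_dj3 hY'
    have he : Bd (s * (y :: Y).length + 1) 3 1 (gt 0 (y :: Y)) := Bd_gt3 0 hY'
    have ho : Bd (s * (y :: Y).length + 1) 3 1 (gt 1 (y :: Y)) := Bd_gt3 1 hY'
    have ho' : Bd (s * (x :: y :: Y).length + 1) 3 1 (gt 1 (x :: y :: Y)) := Bd_gt3 1 hY
    have hex' := List.pairwise_cons.1 hex
    have e : (s + 2) * ((y :: Y).length + 1) = (s + 2) * (Y.length + 1) + (s + 2) := by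
      rw [List.length_cons]; ring
    have e1 : s * (y :: Y).length + 1 ≤ (s + 2) * (Y.length + 1) := by
      rw [List.length_cons]; nlinarith
    have e2 : s * (x :: y :: Y).length + 1 ≤ (s + 2) * (Y.length + 1) + s := by
      rw [List.length_cons, List.length_cons]; nlinarith
    rw [e] at hL
    replace he := Bd_mono he e1 le_rfl le_rfl
    replace ho := Bd_mono ho e1 le_rfl le_rfl
    replace ho' := Bd_mono ho' e2 le_rfl le_rfl
    have hb := ih y hY' (by omega) hex'.2
    have ha : Can m k Hyp (Bd L 8 3) (3 * (Y.length + 1)) (.imp (.neg (dj y Y)) (gt 0 (y :: Y))) :=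
      alp3 hk y Y hY' (by omega)
    have hg : Can m k Hyp (Bd L 8 3) ((c + 3) * (Y.length + 1)) (.imp x (.neg (dj y Y))) :=
      gam3 hk x y Y hx hY' (by omega) hex'.1
    generalize (s + 2) * (Y.length + 1) = D at hd hL he ho ho'
    have b1 : Bd (2 * D + 2 * s + 5) 6 1 (.imp (.imp (.neg x) (dj y Y)) (gt 1 (x :: y :: Y))) :=
      Bd_mono (Bd_imp (Bd_imp (Bd_neg hx) hd) ho') (by omega) (by omega) (by omega)
    have b2 : Bd (3 * D + 3 * s + 10) 7 1 (.imp (.imp x (.neg (dj y Y)))
        (.imp (.imp (.neg x) (dj y Y)) (gt 1 (x :: y :: Y)))) :=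
      Bd_mono (Bd_imp (Bd_imp hx (Bd_neg hd)) b1) (by omega) (by omega) (by omega)
    have b3 : Bd (5 * D + 3 * s + 15) 8 2 (.imp (.imp (.neg (dj y Y)) (gt 0 (y :: Y)))
        (.imp (.imp x (.neg (dj y Y))) (.imp (.imp (.neg x) (dj y Y)) (gt 1 (x :: y :: Y))))) :=
      Bd_mono (Bd_imp (Bd_imp (Bd_neg hd) he) b2) (by omega) (by omega) (by omega)
    have h3 : Can m k Hyp (Bd L 8 3) 1 (.imp (.imp (dj y Y) (gt 1 (y :: Y)))
        (.imp (.imp (.neg (dj y Y)) (gt 0 (y :: Y)))
        (.imp (.imp x (.neg (dj y Y))) (.imp (.imp (.neg x) (dj y Y)) (gt 1 (x :: y :: Y)))))) := by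
      refine can_ax (ψ := Fm.imp (Fm.imp (Fm.var 0) (Fm.var 1)) (Fm.imp (Fm.imp (Fm.neg (Fm.var 0)) (Fm.var 2))
        (Fm.imp (Fm.imp (Fm.var 3) (Fm.neg (Fm.var 0))) (Fm.imp (Fm.imp (Fm.neg (Fm.var 3)) (Fm.var 0)) (Fm.var 4)))))
        (σ := fun n => match n with
          | 0 => dj y Y
          | 1 => gt 1 (y :: Y)
          | 2 => gt 0 (y :: Y)
          | 3 => x
          | _ => gt 1 (x :: y :: Y)) (by simp [Fm.len]; omega) (fun v hv => ?_) ?_
      · show (!(!(v (dj y Y)) || v (gt 1 (y :: Y))) || (!(!(!(v (dj y Y))) || v (gt 0 (y :: Y))) ||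
          (!(!(v x) || !(v (dj y Y))) || (!(!(!(v x)) || v (dj y Y)) || v (gt 1 (x :: y :: Y)))))) = true
        rw [resp_gt hv, resp_gt hv, resp_gt hv, List.countP_cons (l := y :: Y)]
        generalize (y :: Y).countP v = c
        by_cases h : v x = true
        · cases hdd : v (dj y Y)
          · by_cases h0 : c % m = 0
            · have h1 : (c + 1) % m = 1 % m := by
                rw [Nat.add_mod, h0]
                simp
              simp [h, h1]
            · simp [h0]
          · simp [h]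
        · have h' : v x = false := by simpa using h
          cases hdd : v (dj y Y) <;> by_cases h0 : c % m = 1 % m <;> simp [h', h0]
      · show Bd _ _ _ (Fo.imp (.imp (dj y Y) (gt 1 (y :: Y))) (.imp (.imp (.neg (dj y Y)) (gt 0 (y :: Y)))
          (.imp (.imp x (.neg (dj y Y))) (.imp (.imp (.neg x) (dj y Y)) (gt 1 (x :: y :: Y))))))
        exact Bd_mono (Bd_imp (Bd_imp hd ho) b3) (by omega) (by omega) (by omega)
    have h4 := can_mp hb h3 (Bd_mono b3 (by omega) (by omega) (by omega))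
    have h5 := can_mp ha h4 (Bd_mono b2 (by omega) (by omega) (by omega))
    have h6 := can_mp hg h5 (Bd_mono b1 (by omega) (by omega) (by omega))
    refine can_mono h6 ?_
    simp only [List.length_cons]
    nlinarith

theorem one3 (hk : 40 ≤ k) {c0 : ℕ} (x : Fo V) (Y : List (Fo V)) (hY : ∀ B ∈ x :: Y, Bd s 3 0 B)
    (hL : 20 * ((s + 2) * (Y.length + 1)) + 80 ≤ L)
    (hd : Can m k Hyp (Bd L 8 3) c0 (dj x Y))
    (hex : List.Pairwise (fun A B => Can m k Hyp (Bd L 8 3) c (.imp A (.neg B))) (x :: Y)) :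
    Can m k Hyp (Bd L 8 3) (c0 + (c + 12) * (Y.length + 1) ^ 2 + 1) (gt 1 (x :: Y)) := by
  refine can_mono (can_mp hd (bet3 hk x Y hY hL hex) ?_) (by omega)
  refine Bd_mono (Bd_gt3 1 hY) ?_ (by omega) (by omega)
  have : s * (x :: Y).length + 1 ≤ (s + 2) * (Y.length + 1) := by
    rw [List.length_cons]; nlinarith
  omega

end Pool.Agent.H85.FW
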