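import Mathlib
import Pool.Agent.H85.FW.AtL
import Pool.Agent.H85.FW.One
import Pool.Agent.H85.FW.Fin1
import Pool.Agent.H85.FW.Num
import Pool.Agent.H85.FG.Mix

/-!
# Fin: refutations of the counting principle with MOD_m gates, if a prime divides `m` and `r / gcd (r, N)`
-/

set_option autoImplicit false

namespace Pool.Agent.H85.FW

open Pool.Agent.H3.Frg Pool.Agent.H3.Frg2 Pool.Agent.H67.FG Pool.Agent.H85.FG Pool.Agent.H93.RG Pool.Agent.H3.MX

variable {N : ℕ}

theorem rw1_mem {r : ℕ} {S : Finset (Fin N)} {B : Fo (Finset (Fin N))} (h : B ∈ rw1 r S) :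
    ∃ Q, Cm r S Q ∧ B = ps Q := by
  obtain ⟨Q, hQ, rfl⟩ := List.mem_map.1 h
  exact ⟨Q, mem_cm.1 (Finset.mem_toList.1 hQ), rfl⟩

theorem rw1_Bd {r q : ℕ} {S : Finset (Fin N)} (hS : S.card ≤ q) : ∀ B ∈ rw1 r S, Bd (2 * q + 5) 3 0 B := by
  intro B hB
  obtain ⟨Q, hQ, rfl⟩ := rw1_mem hB
  exact Bd_mono (Bd_ps hQ) (by omega) le_rfl le_rfl

theorem rw1_len {r q : ℕ} (hN : 1 ≤ N) {S : Finset (Fin N)} (hS : S.card ≤ q) :
    (rw1 r S).length ≤ (N ^ r) ^ q := by
  unfold rw1
  rw [List.length_map, Finset.length_toList]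
  exact (cm_card r S).trans (Nat.pow_le_pow_right (Nat.one_le_pow _ _ hN) hS)

theorem rw1_cons {r : ℕ} {S : Finset (Fin N)} (hS : S.card ≤ r) (hr : r ≤ N) :
    ∃ (x : Fo (Finset (Fin N))) (Y : List (Fo (Finset (Fin N)))), rw1 r S = x :: Y := by
  obtain ⟨Q, hQ⟩ := cm_nonempty hS hr
  have h : rw1 r S ≠ [] := by
    intro h
    have : ps Q ∈ rw1 r S := List.mem_map.2 ⟨Q, Finset.mem_toList.2 hQ, rfl⟩
    rw [h] at this
    simp at this
  exact List.exists_cons_of_ne_nil h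

theorem rws_Bd {r q i : ℕ} : ∀ B ∈ rws r q N i, Bd (2 * q + 5) 3 0 B := by
  intro B hB
  obtain ⟨S, hS, h⟩ := List.mem_flatMap.1 hB
  have := (Finset.mem_powersetCard.1 (Finset.mem_toList.1 (List.mem_of_mem_take hS))).2
  exact rw1_Bd (by omega) B h

theorem flat_length (r q : ℕ) (hN : 1 ≤ N) (l : List (Finset (Fin N))) (hl : ∀ S ∈ l, S.card ≤ q) :
    (l.flatMap (rw1 r)).length ≤ l.length * (N ^ r) ^ q := by
  induction l with
  | nil => simp
  | cons a l ih =>
    rw [List.flatMap_cons, List.length_append, List.length_cons, add_mul]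
    have := rw1_len (r := r) hN (hl a (by simp))
    have := ih fun S hS => hl S (List.mem_cons_of_mem _ hS)
    omega

theorem rws_length {r q : ℕ} (hN : 1 ≤ N) (i : ℕ) : (rws r q N i).length ≤ N ^ q * (N ^ r) ^ q := by
  refine (flat_length r q hN _ fun S hS => ?_).trans (Nat.mul_le_mul_right _ ?_)
  · have := (Finset.mem_powersetCard.1 (Finset.mem_toList.1 (List.mem_of_mem_take hS))).2
    omega
  · rw [List.length_take, Finset.length_toList, Finset.card_powersetCard, Finset.card_univ, Fintype.card_fin]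
    exact (min_le_right _ _).trans (Nat.choose_le_pow N q)

theorem rws_succ (r q : ℕ) {i : ℕ} (hi : i < N.choose q) :
    ∃ S : Finset (Fin N), S.card = q ∧ rws r q N (i + 1) = rws r q N i ++ rw1 r S := by
  have hlen : (Finset.powersetCard q (Finset.univ : Finset (Fin N))).toList.length = N.choose q := by
    rw [Finset.length_toList, Finset.card_powersetCard, Finset.card_univ, Fintype.card_fin]
  refine ⟨(Finset.powersetCard q (Finset.univ : Finset (Fin N))).toList[i]'(by omega), ?_, ?_⟩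
  · exact (Finset.mem_powersetCard.1 (Finset.mem_toList.1 (List.getElem_mem _))).2
  · unfold rws
    rw [List.take_succ_eq_append_getElem (by omega), List.flatMap_append]
    simp

theorem can_rws (m : ℕ) {k r q L : ℕ} (hk : 40 ≤ k) (hr : 1 ≤ r) (hrN : r ≤ N) (hq : q ≤ r)
    (hL : 1000 * ((q + 1) * N ^ r * (N ^ r) ^ q * N ^ q) ≤ L) : ∀ i, i ≤ N.choose q →
    Can m k (Count r N) (Bd L 8 3) (i * (q * ((N ^ r) ^ q * (N ^ r * (2 * (N ^ r) ^ q + 20 * (q + 1) ^ 2 + 3) + 5) + 1) + 1 +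
      (10 * (q + 1) + 12) * ((N ^ r) ^ q) ^ 2 + 5) + 1) (gt i (rws r q N i)) := by
  have hN1 : 1 ≤ N := by omega
  have hNr : 1 ≤ N ^ r := Nat.one_le_pow _ _ hN1
  have hR : 1 ≤ (N ^ r) ^ q := Nat.one_le_pow _ _ hNr
  have hNq : 1 ≤ N ^ q := Nat.one_le_pow _ _ hN1
  have hLw : 1000 * ((q + 1) * ((N ^ r) ^ q * N ^ q)) ≤ L := by
    refine le_trans (Nat.mul_le_mul_left _ ?_) hL
    calc (q + 1) * ((N ^ r) ^ q * N ^ q) ≤ ((q + 1) * ((N ^ r) ^ q * N ^ q)) * N ^ r := Nat.le_mul_of_pos_right _ hNr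
      _ = (q + 1) * N ^ r * (N ^ r) ^ q * N ^ q := by ring
  have hLr : 1000 * ((q + 1) * N ^ r * (N ^ r) ^ q) ≤ L := by
    refine le_trans (Nat.mul_le_mul_left _ ?_) hL
    exact Nat.le_mul_of_pos_right _ hNq
  have hLR : 1000 * ((q + 1) * (N ^ r) ^ q) ≤ L := by
    refine le_trans (Nat.mul_le_mul_left _ ?_) hLw
    exact Nat.mul_le_mul_left _ (Nat.le_mul_of_pos_right _ hNq)
  have hLq : 1000 * (q + 1) ≤ L := by
    refine le_trans (Nat.mul_le_mul_left _ ?_) hLR
    exact Nat.le_mul_of_pos_right _ hR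
  have hgt : ∀ a i, Bd (8 * ((q + 1) * ((N ^ r) ^ q * N ^ q))) 3 1 (gt a (rws r q N i)) := by
    intro a i
    refine Bd_mono (Bd_gt3 a rws_Bd) ?_ le_rfl le_rfl
    have h1 := rws_length (r := r) (q := q) hN1 i
    have h2 : 1 ≤ N ^ q * (N ^ r) ^ q := Nat.mul_le_mul hNq hR
    calc (2 * q + 5) * (rws r q N i).length + 1 ≤ (2 * q + 5) * (N ^ q * (N ^ r) ^ q) + N ^ q * (N ^ r) ^ q :=
          add_le_add (Nat.mul_le_mul_left _ h1) h2
      _ = (2 * q + 6) * (N ^ q * (N ^ r) ^ q) := by ring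
      _ ≤ (8 * (q + 1)) * (N ^ q * (N ^ r) ^ q) := Nat.mul_le_mul_right _ (by omega)
      _ = 8 * ((q + 1) * ((N ^ r) ^ q * N ^ q)) := by ring
  intro i
  induction i with
  | zero =>
    intro _
    rw [Nat.zero_mul, Nat.zero_add]
    refine can_ax (ψ := Fm.var 0) (σ := fun _ => gt 0 (rws r q N 0)) (by simp [Fm.len]; omega) (fun v hv => ?_) ?_
    · show v (gt 0 (rws r q N 0)) = true
      rw [resp_gt hv]
      simp [rws]
    · show Bd _ _ _ (gt 0 (rws r q N 0))
      exact Bd_mono (hgt 0 0) (by omega) (by omega) (by omega)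
  | succ i ih =>
    intro hi
    obtain ⟨S, hS, hrow⟩ := rws_succ r q (N := N) (i := i) (by omega)
    obtain ⟨x, Y, hxY⟩ := rw1_cons (r := r) (S := S) (by omega) hrN
    have hlen : Y.length + 1 ≤ (N ^ r) ^ q := by
      have := rw1_len (r := r) hN1 (show S.card ≤ q by omega)
      rw [hxY, List.length_cons] at this
      exact this
    have h1 := ih (by omega)
    have hBx : ∀ B ∈ x :: Y, Bd (2 * q + 5) 3 0 B := by
      rw [← hxY]; exact rw1_Bd (by omega)
    have hLL : (2 * q + 7) * (Y.length + 1) ≤ 7 * ((q + 1) * (N ^ r) ^ q) := by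
      calc (2 * q + 7) * (Y.length + 1) ≤ (7 * (q + 1)) * (N ^ r) ^ q := Nat.mul_le_mul (by omega) hlen
        _ = 7 * ((q + 1) * (N ^ r) ^ q) := by ring
    have hpos : 1 ≤ (q + 1) * (N ^ r) ^ q := Nat.mul_pos (Nat.succ_pos q) hR
    have h0 := at_least (m := m) hk hr hrN hq hLr S (by omega) x Y hxY
    have h2 := one3 (m := m) (c := 10 * (q + 1)) hk x Y hBx (by
      have : 20 * ((2 * q + 5 + 2) * (Y.length + 1)) ≤ 20 * (7 * ((q + 1) * (N ^ r) ^ q)) := Nat.mul_le_mul_left _ hLL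
      omega) h0 (by
      rw [← hxY]
      unfold rw1
      rw [List.pairwise_map]
      have h : List.Pairwise (fun b c => b ≠ c) (cm r S).toList := (cm r S).nodup_toList
      refine List.Pairwise.imp_of_mem ?_ h
      intro Q Q' hQ hQ' hne
      rw [← hS]
      exact pair_ne hk (mem_cm.1 (Finset.mem_toList.1 hQ)) (mem_cm.1 (Finset.mem_toList.1 hQ')) hne (by rw [hS]; omega))
    rw [← hxY] at h2
    have hB1 : Bd (8 * ((q + 1) * ((N ^ r) ^ q * N ^ q))) 3 1 (gt 1 (rw1 r S)) := by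
      refine Bd_mono (Bd_gt3 1 (rw1_Bd (q := q) (by omega))) ?_ le_rfl le_rfl
      rw [hxY, List.length_cons]
      have h5 : (2 * q + 5) * (Y.length + 1) + 1 ≤ (2 * q + 7) * (Y.length + 1) := by nlinarith
      have h6 : (q + 1) * (N ^ r) ^ q ≤ (q + 1) * ((N ^ r) ^ q * N ^ q) :=
        Nat.mul_le_mul_left _ (Nat.le_mul_of_pos_right _ hNq)
      omega
    have hB0 := hgt i i
    have hB2 := hgt (i + 1) (i + 1)
    have h3 : Can m k (Count r N) (Bd L 8 3) 1
        (.imp (gt i (rws r q N i)) (.imp (gt 1 (rw1 r S)) (gt (i + 1) (rws r q N (i + 1))))) := by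
      refine can_ax (ψ := Fm.imp (Fm.var 0) (Fm.imp (Fm.var 1) (Fm.var 2)))
        (σ := fun n => match n with
          | 0 => gt i (rws r q N i)
          | 1 => gt 1 (rw1 r S)
          | _ => gt (i + 1) (rws r q N (i + 1))) (by simp [Fm.len]; omega) (fun v hv => ?_) ?_
      · show (!(v (gt i (rws r q N i))) || (!(v (gt 1 (rw1 r S))) ||
          v (gt (i + 1) (rws r q N (i + 1))))) = true
        rw [resp_gt hv, resp_gt hv, resp_gt hv, hrow, List.countP_append]
        generalize (rws r q N i).countP v = c1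
        generalize (rw1 r S).countP v = c2
        by_cases e1 : c1 % m = i % m
        · by_cases e2 : c2 % m = 1 % m
          · have e3 : (c1 + c2) % m = (i + 1) % m := by
              rw [Nat.add_mod, e1, e2, ← Nat.add_mod]
            simp [e1, e3]
          · simp [e2]
        · simp [e1]
      · show Bd _ _ _ (Fo.imp (gt i (rws r q N i)) (Fo.imp (gt 1 (rw1 r S))
          (gt (i + 1) (rws r q N (i + 1)))))
        exact Bd_mono (Bd_imp hB0 (Bd_imp hB1 hB2)) (by omega) (by omega) (by omega)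
    have h4 := can_mp h1 h3 (Bd_mono (Bd_imp hB1 hB2) (by omega) (by omega) (by omega))
    have h5 := can_mp h2 h4 (Bd_mono hB2 (by omega) (by omega) (by omega))
    refine can_mono h5 ?_
    have h6 : (10 * (q + 1) + 12) * (Y.length + 1) ^ 2 ≤ (10 * (q + 1) + 12) * ((N ^ r) ^ q) ^ 2 :=
      Nat.mul_le_mul_left _ (Nat.pow_le_pow_left hlen 2)
    rw [hS]
    generalize q * ((N ^ r) ^ q * (N ^ r * (2 * (N ^ r) ^ q + 20 * (q + 1) ^ 2 + 3) + 5) + 1) = T1
    generalize (10 * (q + 1) + 12) * ((N ^ r) ^ q) ^ 2 = T2 at h6 ⊢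
    have h7 : (i + 1) * (T1 + 1 + T2 + 5) = i * (T1 + 1 + T2 + 5) + (T1 + 1 + T2 + 5) := by ring
    rw [h7]
    omega

/-- Refutations of the counting principle with `MOD_m` gates, if a prime `p` divides `m` and `r / gcd (r, N)`. -/
theorem upper (m r N p : ℕ) (hp : p.Prime) (hr : 2 ≤ r) (hpm : p ∣ m) (hps : p ∣ r / r.gcd N) :
    ∃ π : List (Fo (Finset (Fin N))), IsRef m 40 (Count r N) π ∧
    (∀ A ∈ π, (∀ B ∈ A.subs, B.dep ≤ 8) ∧ A.gates.ncard ≤ 3) ∧ size π ≤ 10 ^ 5 * N ^ (4 * r ^ 2) := by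
  have hN0 : 0 < N := by
    rcases Nat.eq_zero_or_pos N with h | h
    · exfalso
      rw [h, Nat.gcd_zero_right, Nat.div_self (by omega)] at hps
      exact hp.one_lt.ne' (Nat.dvd_one.1 hps)
    · exact h
  have hx : Bd 1 0 0 (Fo.var (∅ : Finset (Fin N))) := Bd_var _
  set x : Fo (Finset (Fin N)) := Fo.var ∅ with hxdef
  have hbot := Bd_neg (Bd_imp hx hx)
  by_cases h1 : N < r
  · have hcan : Can m 40 (Count r N) (Bd 4 8 3) 1 (.neg (.imp x x)) := by
      refine can_hyp ?_ (Bd_mono hbot (by omega) (by omega) (by omega))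
      refine Or.inr ⟨⟨0, hN0⟩, [], _, rfl, fun e he _ => ?_⟩
      exfalso
      have h2 := Finset.card_le_univ e
      rw [Fintype.card_fin, he] at h2
      omega
    obtain ⟨π, h1, h2, h3⟩ := exists_ref hcan
    refine ⟨π, h1, fun A hA => ⟨(h2 A hA).2.1, (h2 A hA).2.2⟩, ?_⟩
    refine (size_le (L := 4) (n := 2) (fun B hB => (h2 B hB).1) (by omega)).trans ?_
    have : 1 ≤ N ^ (4 * r ^ 2) := Nat.one_le_pow _ _ hN0
    omega
  · have hrN : r ≤ N := by omega
    -- the exponent of `p`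
    obtain ⟨j, hj1, hj2, hj3⟩ : ∃ j, p ^ j ∣ N ∧ ¬ p ^ (j + 1) ∣ N ∧ p ^ (j + 1) ∣ r := by
      refine ⟨N.factorization p, Nat.ordProj_dvd N p, Nat.pow_succ_factorization_not_dvd hN0.ne' hp, ?_⟩
      rw [hp.pow_dvd_iff_le_factorization (by omega)]
      have hg : r.gcd N ∣ r := Nat.gcd_dvd_left r N
      have hg0 : r.gcd N ≠ 0 := Nat.gcd_ne_zero_left (by omega)
      have h2 : (r / r.gcd N).factorization p = r.factorization p - (r.gcd N).factorization p := by
        rw [Nat.factorization_div hg]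
        rfl
      have h3 : 1 ≤ (r / r.gcd N).factorization p := by
        have h4 : r / r.gcd N ≠ 0 := (Nat.div_pos (Nat.le_of_dvd (by omega) hg) (Nat.pos_of_ne_zero hg0)).ne'
        exact (hp.dvd_iff_one_le_factorization h4).1 hps
      have h5 : (r.gcd N).factorization p = min (r.factorization p) (N.factorization p) := by
        rw [Nat.factorization_gcd (by omega) hN0.ne']
        rfl
      omega
    have hp2 := hp.two_le
    have hq1 : 1 ≤ p ^ j := Nat.one_le_pow _ _ (by omega)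
    have hqr : 2 * p ^ j ≤ r := by
      refine le_trans ?_ (Nat.le_of_dvd (by omega) hj3)
      rw [pow_succ, mul_comm]
      exact Nat.mul_le_mul_left _ hp2
    have hqlt : p ^ j < p ^ (j + 1) := Nat.pow_lt_pow_right (by omega) (by omega)
    have hnd := choose_ndvd hp hj1 hj2
    generalize hqd : p ^ j = q at *
    set L := 1000 * ((q + 1) * N ^ r * (N ^ r) ^ q * N ^ q) with hLdef
    have hNr : 1 ≤ N ^ r := Nat.one_le_pow _ _ hN0
    have hR : 1 ≤ (N ^ r) ^ q := Nat.one_le_pow _ _ hNr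
    have hNq : 1 ≤ N ^ q := Nat.one_le_pow _ _ hN0
    have hL1 : 1000 ≤ L := by
      have : 1 ≤ (q + 1) * N ^ r * (N ^ r) ^ q * N ^ q :=
        Nat.mul_pos (Nat.mul_pos (Nat.mul_pos (Nat.succ_pos q) hNr) hR) hNq
      omega
    have h2 := can_rws m (k := 40) (by norm_num) (by omega) hrN (by omega) hLdef.ge (N.choose q) le_rfl
    set n := N.choose q with hn
    have hB : Bd (8 * ((q + 1) * ((N ^ r) ^ q * N ^ q))) 3 1 (gt n (rws r q N n)) := by
      refine Bd_mono (Bd_gt3 n rws_Bd) ?_ le_rfl le_rfl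
      have h1 := rws_length (r := r) (q := q) hN0 n
      have h2 : 1 ≤ N ^ q * (N ^ r) ^ q := Nat.mul_le_mul hNq hR
      calc (2 * q + 5) * (rws r q N n).length + 1 ≤ (2 * q + 5) * (N ^ q * (N ^ r) ^ q) + N ^ q * (N ^ r) ^ q :=
            add_le_add (Nat.mul_le_mul_left _ h1) h2
        _ = (2 * q + 6) * (N ^ q * (N ^ r) ^ q) := by ring
        _ ≤ (8 * (q + 1)) * (N ^ q * (N ^ r) ^ q) := Nat.mul_le_mul_right _ (by omega)
        _ = 8 * ((q + 1) * ((N ^ r) ^ q * N ^ q)) := by ring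
    have hB8 : 8 * (8 * ((q + 1) * ((N ^ r) ^ q * N ^ q))) ≤ L := by
      have : (q + 1) * ((N ^ r) ^ q * N ^ q) ≤ (q + 1) * N ^ r * (N ^ r) ^ q * N ^ q := by
        calc (q + 1) * ((N ^ r) ^ q * N ^ q) ≤ ((q + 1) * ((N ^ r) ^ q * N ^ q)) * N ^ r :=
              Nat.le_mul_of_pos_right _ hNr
          _ = (q + 1) * N ^ r * (N ^ r) ^ q * N ^ q := by ring
      omega
    generalize 8 * ((q + 1) * ((N ^ r) ^ q * N ^ q)) = b at hB hB8
    have h3 : Can m 40 (Count r N) (Bd L 8 3) 1 (.neg (gt n (rws r q N n))) := by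
      refine can_ax (ψ := Fm.neg (Fm.var 0)) (σ := fun _ => gt n (rws r q N n)) (by simp [Fm.len]) (fun v hv => ?_) ?_
      · show (!(v (gt n (rws r q N n)))) = true
        rw [resp_gt hv]
        have this : ¬ (rws r q N n).countP v % m = n % m := by
          intro h
          have h4 : p ∣ (rws r q N n).countP v := dvd_rws hp hj3 hq1 hqlt v
          have h5 : (rws r q N n).countP v ≡ n [MOD p] := Nat.ModEq.of_dvd hpm h
          exact hnd ((h5.dvd_iff (dvd_refl _)).1 h4)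
        simp [this]
      · show Bd _ _ _ (Fo.neg (gt n (rws r q N n)))
        exact Bd_mono (Bd_neg hB) (by omega) (by omega) (by omega)
    have h4 : Can m 40 (Count r N) (Bd L 8 3) 1
        (.imp (gt n (rws r q N n)) (.imp (.neg (gt n (rws r q N n))) (.neg (.imp x x)))) := by
      refine can_ax (ψ := Fm.imp (Fm.var 0) (Fm.imp (Fm.neg (Fm.var 0)) (Fm.neg (Fm.imp (Fm.var 1) (Fm.var 1)))))
        (σ := fun n' => match n' with
          | 0 => gt n (rws r q N n)
          | _ => x) (by simp [Fm.len]) (fun v hv => ?_) ?_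
      · show (!(v (gt n (rws r q N n))) || (!(!(v (gt n (rws r q N n)))) || (!(!(v x) || v x)))) = true
        cases v (gt n (rws r q N n)) <;> simp
      · show Bd _ _ _ (Fo.imp (gt n (rws r q N n)) (Fo.imp (Fo.neg (gt n (rws r q N n))) (Fo.neg (Fo.imp x x))))
        exact Bd_mono (Bd_imp hB (Bd_imp (Bd_neg hB) hbot)) (by omega) (by omega) (by omega)
    have h5 := can_mp h2 h4 (Bd_mono (Bd_imp (Bd_neg hB) hbot) (by omega) (by omega) (by omega))
    have h6 := can_mp h3 h5 (Bd_mono hbot (by omega) (by omega) (by omega))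
    obtain ⟨π, g1, g2, g3⟩ := exists_ref h6
    refine ⟨π, g1, fun A hA => ⟨(g2 A hA).2.1, (g2 A hA).2.2⟩, ?_⟩
    refine (size_le (fun B hB => (g2 B hB).1) g3).trans ?_
    refine le_trans ?_ (num (N := N) (r := r) (q := q) hr hrN hq1 (by omega))
    refine Nat.mul_le_mul_right _ ?_
    have hcn : n ≤ N ^ q := Nat.choose_le_pow N q
    generalize q * ((N ^ r) ^ q * (N ^ r * (2 * (N ^ r) ^ q + 20 * (q + 1) ^ 2 + 3) + 5) + 1) + 1 +
      (10 * (q + 1) + 12) * ((N ^ r) ^ q) ^ 2 + 5 = C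
    have : n * C ≤ N ^ q * C := Nat.mul_le_mul_right _ hcn
    omega

/-- The same as refutations in which each line has its own modulus. -/
theorem upper_mix (m r N p : ℕ) (hp : p.Prime) (hr : 2 ≤ r) (hpm : p ∣ m) (hps : p ∣ r / r.gcd N) :
    ∃ π : List (ℕ × Fo (Finset (Fin N))), IsMix 40 (Count r N) π ∧
      (∀ x ∈ π, x.1 = m ∧ (∀ B ∈ x.2.subs, B.dep ≤ 8) ∧ x.2.gates.ncard ≤ 3) ∧
      size (π.map Prod.snd) ≤ 10 ^ 5 * N ^ (4 * r ^ 2) := by
  obtain ⟨π, h1, h2, h3⟩ := upper m r N p hp hr hpm hps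
  refine ⟨π.map fun A => (m, A), V.mix_of_ref h1, fun x hx => ?_, ?_⟩
  · obtain ⟨A, hA, rfl⟩ := List.mem_map.1 hx
    exact ⟨rfl, h2 A hA⟩
  · rw [List.map_map]
    have : (Prod.snd ∘ fun A : Fo (Finset (Fin N)) => (m, A)) = id := rfl
    rw [this, List.map_id]
    exact h3

end Pool.Agent.H85.FW
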