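import Mathlib
import Pool.Agent.H85.FW.Fin

/-!
# Big: refutations of the counting principle with MOD_m gates for large `m` (the gates count exactly)
-/

set_option autoImplicit false

namespace Pool.Agent.H85.FW

open Pool.Agent.H3.Frg Pool.Agent.H3.Frg2 Pool.Agent.H67.FG Pool.Agent.H85.FG Pool.Agent.H93.RG Pool.Agent.H3.MX

/-- Refutations of the counting principle with `MOD_m` gates, `m > N ^ (r + 1)`, `r` does not divide `N`. -/
theorem upper_big (m r N : ℕ) (hr : 2 ≤ r) (hrN : ¬ r ∣ N) (hm : N ^ (r + 1) < m) :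
    ∃ π : List (Fo (Finset (Fin N))), IsRef m 40 (Count r N) π ∧
    (∀ A ∈ π, (∀ B ∈ A.subs, B.dep ≤ 8) ∧ A.gates.ncard ≤ 3) ∧ size π ≤ 1000 * N ^ (3 * r + 2) := by
  have hN0 : 0 < N := by
    rcases Nat.eq_zero_or_pos N with h | h
    · exact absurd (by rw [h]; exact dvd_zero _) hrN
    · exact h
  have hx : Bd 1 0 0 (Fo.var (∅ : Finset (Fin N))) := Bd_var _
  set x : Fo (Finset (Fin N)) := Fo.var ∅ with hxdef
  have hbot := Bd_neg (Bd_imp hx hx)
  have hNr : 1 ≤ N ^ r := Nat.one_le_pow _ _ hN0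
  have hP : 1 ≤ N * N ^ r := Nat.mul_le_mul hN0 hNr
  have hQ : 1 ≤ N * (N ^ r) ^ 2 := Nat.mul_le_mul hN0 (Nat.one_le_pow _ _ hNr)
  have key : ∃ n, n ≤ 24 * (N * (N ^ r) ^ 2) ∧ Can m 40 (Count r N) (Bd (30 * (N * N ^ r)) 8 3) n (.neg (.imp x x)) := by
    by_cases h1 : N < r
    · refine ⟨1, by omega, can_hyp ?_ (Bd_mono hbot (by omega) (by omega) (by omega))⟩
      refine Or.inr ⟨⟨0, hN0⟩, [], _, rfl, fun e he _ => ?_⟩
      exfalso
      have h2 := Finset.card_le_univ e
      rw [Fintype.card_fin, he] at h2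
      omega
    · have hN : r ≤ N := by omega
      have h2 := V.can_rows m (k := 40) (by norm_num) (by omega) hN N le_rfl
      have hB : Bd (N * N ^ r + 1) 0 1 (gt N (V.rows r N N)) := by
        refine Bd_mono (Bd_gt N (V.rows_var r N)) ?_ le_rfl le_rfl
        have := V.rows_length (N := N) r N
        omega
      have h3 : Can m 40 (Count r N) (Bd (30 * (N * N ^ r)) 8 3) 1 (.neg (gt N (V.rows r N N))) := by
        refine can_ax (ψ := Fm.neg (Fm.var 0)) (σ := fun _ => gt N (V.rows r N N)) (by simp [Fm.len]) (fun v hv => ?_) ?_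
        · show (!(v (gt N (V.rows r N N)))) = true
          rw [resp_gt hv]
          have this : ¬ (V.rows r N N).countP v % m = N % m := by
            intro h
            have h4 : r ∣ (V.rows r N N).countP v := V.dvd_rows r v
            have h5 : (V.rows r N N).countP v ≤ N * N ^ r := List.countP_le_length.trans (V.rows_length r N)
            have h6 : N * N ^ r < m := by rw [mul_comm, ← pow_succ]; exact hm
            have h7 : N ≤ N * N ^ r := Nat.le_mul_of_pos_right _ hNr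
            rw [Nat.mod_eq_of_lt (by omega), Nat.mod_eq_of_lt (by omega)] at h
            rw [h] at h4
            exact hrN h4
          simp [this]
        · show Bd _ _ _ (Fo.neg (gt N (V.rows r N N)))
          exact Bd_mono (Bd_neg hB) (by omega) (by omega) (by omega)
      have h4 : Can m 40 (Count r N) (Bd (30 * (N * N ^ r)) 8 3) 1
          (.imp (gt N (V.rows r N N)) (.imp (.neg (gt N (V.rows r N N))) (.neg (.imp x x)))) := by
        refine can_ax (ψ := Fm.imp (Fm.var 0) (Fm.imp (Fm.neg (Fm.var 0)) (Fm.neg (Fm.imp (Fm.var 1) (Fm.var 1)))))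
          (σ := fun n => match n with
            | 0 => gt N (V.rows r N N)
            | _ => x) (by simp [Fm.len]) (fun v hv => ?_) ?_
        · show (!(v (gt N (V.rows r N N))) || (!(!(v (gt N (V.rows r N N)))) || (!(!(v x) || v x)))) = true
          cases v (gt N (V.rows r N N)) <;> simp
        · show Bd _ _ _ (Fo.imp (gt N (V.rows r N N)) (Fo.imp (Fo.neg (gt N (V.rows r N N))) (Fo.neg (Fo.imp x x))))
          exact Bd_mono (Bd_imp hB (Bd_imp (Bd_neg hB) hbot)) (by omega) (by omega) (by omega)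
      have h5 := can_mp h2 h4 (Bd_mono (Bd_imp (Bd_neg hB) hbot) (by omega) (by omega) (by omega))
      have h6 := can_mp h3 h5 (Bd_mono hbot (by omega) (by omega) (by omega))
      refine ⟨_, ?_, h6⟩
      have e2 : N * (12 * (N ^ r) ^ 2 + 5) = 12 * (N * (N ^ r) ^ 2) + 5 * N := by ring
      have e3 : N ≤ N * (N ^ r) ^ 2 := Nat.le_mul_of_pos_right _ (Nat.pos_of_ne_zero (by positivity))
      have e4 : 2 ≤ N := hr.trans hN
      have e5 : 4 ≤ (N ^ r) ^ 2 := by
        have : 2 ≤ N ^ r := by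
          calc 2 ≤ N := e4
            _ = N ^ 1 := (pow_one N).symm
            _ ≤ N ^ r := Nat.pow_le_pow_right hN0 (by omega)
        nlinarith
      have e6 : N * 4 ≤ N * (N ^ r) ^ 2 := Nat.mul_le_mul_left _ e5
      rw [e2]
      omega
  obtain ⟨n, hn, hcan⟩ := key
  obtain ⟨π, h1, h2, h3⟩ := exists_ref hcan
  refine ⟨π, h1, fun A hA => ⟨(h2 A hA).2.1, (h2 A hA).2.2⟩, ?_⟩
  refine (size_le (L := 30 * (N * N ^ r)) (n := 25 * (N * (N ^ r) ^ 2)) (fun B hB => (h2 B hB).1) (by omega)).trans ?_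
  have e : 25 * (N * (N ^ r) ^ 2) * (30 * (N * N ^ r)) = 750 * N ^ (3 * r + 2) := by
    have e1 : N ^ (3 * r + 2) = (N ^ r) ^ 3 * N ^ 2 := by
      rw [← pow_mul, ← pow_add]
      congr 1
      ring
    rw [e1]
    ring
  rw [e]
  exact Nat.mul_le_mul_right _ (by norm_num)

/-- Both cases, as refutations in which each line has its own modulus. -/
theorem upper_all (m r N : ℕ) (hr : 2 ≤ r) (hrN : ¬ r ∣ N) (hm : m.gcd (r / r.gcd N) ≠ 1 ∨ N ^ (r + 1) < m) :
    ∃ π : List (ℕ × Fo (Finset (Fin N))), IsMix 40 (Count r N) π ∧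
      (∀ x ∈ π, x.1 = m ∧ (∀ B ∈ x.2.subs, B.dep ≤ 8) ∧ x.2.gates.ncard ≤ 3) ∧
      size (π.map Prod.snd) ≤ 10 ^ 5 * N ^ (4 * r ^ 2) := by
  rcases hm with hm | hm
  · obtain ⟨p, hp, hpd⟩ := Nat.exists_prime_and_dvd hm
    exact upper_mix m r N p hp hr (hpd.trans (Nat.gcd_dvd_left _ _)) (hpd.trans (Nat.gcd_dvd_right _ _))
  · have hN0 : 0 < N := by
      rcases Nat.eq_zero_or_pos N with h | h
      · exact absurd (by rw [h]; exact dvd_zero _) hrN
      · exact h
    obtain ⟨π, h1, h2, h3⟩ := upper_big m r N hr hrN hm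
    refine ⟨π.map fun A => (m, A), V.mix_of_ref h1, fun x hx => ?_, ?_⟩
    · obtain ⟨A, hA, rfl⟩ := List.mem_map.1 hx
      exact ⟨rfl, h2 A hA⟩
    · rw [List.map_map]
      have : (Prod.snd ∘ fun A : Fo (Finset (Fin N)) => (m, A)) = id := rfl
      rw [this, List.map_id]
      refine h3.trans ?_
      have h4 : N ^ (3 * r + 2) ≤ N ^ (4 * r ^ 2) := Nat.pow_le_pow_right hN0 (by nlinarith)
      calc 1000 * N ^ (3 * r + 2) ≤ 1000 * N ^ (4 * r ^ 2) := Nat.mul_le_mul_left _ h4
        _ ≤ 10 ^ 5 * N ^ (4 * r ^ 2) := Nat.mul_le_mul_right _ (by norm_num)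

end Pool.Agent.H85.FW
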